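import Pool.Agent.Helper13.HG.G1

/-!
# Project HG2: quadratic twists with one rational branch point, sections modulo 2

Goal: `k` a number field, `f ∈ k[X]` separable of even degree `≥ 6` with exactly one root `a` in `k`,
all other roots of degree `≥ 4` over `k` (by a change of coordinates: `f` of odd degree `≥ 5` without
root in `k`).  For almost all `c ∈ k*/k*²`, ordered by `cond`, every Galois section of every curve
which maps onto `y² = c f(x)` agrees modulo `2` with the section of the rational point `(a, 0)`.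
-/

set_option autoImplicit false

namespace Pool.Agent.HG

open Polynomial Filter Topology NumberField IsDedekindDomain Pool.Agent.Helper91.Sect
open Pool.Agent.Helper99.HG (CD pf Nm BT TA TB Sys)
open scoped IntermediateField

noncomputable section

/-! ## The counting theorems -/

section count

variable {k : ℕ} {G : Type}

open scoped Classical in
/-- the conditions, for given options -/
def BadT [CommGroup G] (D : CD k G) (c : Finset D.P) (τ : D.P → D.O) : Prop :=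
  ∀ p ∈ pf D c, τ p ∈ D.V p ∧ ∀ j, ∀ i ∈ D.I p (τ p) j,
    ∏ q ∈ (pf D c).filter (fun q => q ≠ p ∧ D.cmp (τ q) = j), D.χ p i q (τ q) = D.g p (τ p) i

/-- `j₀` is a component with one place above every prime: all its options at a prime are equivalent -/
structure Special (D : CD k G) (j₀ : Fin k) : Prop where
  chi : ∀ q, ∀ o ∈ D.V q, ∀ o' ∈ D.V q, D.cmp o = j₀ → D.cmp o' = j₀ → ∀ p i,
    D.χ p i q o = D.χ p i q o'
  emp : ∀ q, ∀ o ∈ D.V q, D.cmp o = j₀ → D.I q o j₀ = ∅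

/-- few products of primes with norms above `Y`, with option of the component `j₀`, satisfy the
conditions at `m` -/
def BTR [CommGroup G] (D : CD k G) (j₀ : Fin k) : Prop :=
  ∃ (C : ℝ) (A : ℕ), 0 < C ∧ ∀ (m : Finset D.P), (∀ p ∈ m, p ∉ D.Ex) →
    ∀ τ : D.P → D.O, (∀ p ∈ m, τ p ∈ D.V p) → ∀ t : D.P → D.ι → G, ∀ Y h : ℕ, 2 ≤ Y →
    Real.log Y ≤ Real.log h ^ (1 / 2 : ℝ) → Nm D m ^ A ≤ h → ∀ (o : D.P → D.O)
    (E : Finset (Finset D.P)), (∀ e ∈ E, Nm D e ≤ h ∧ (∀ q ∈ e, q ∉ D.Ex ∧ q ∉ m ∧ Y < D.nm q ∧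
      o q ∈ D.V q ∧ D.cmp (o q) = j₀) ∧
      ∀ p ∈ m, ∀ i ∈ D.I p (τ p) j₀, ∏ q ∈ e, D.χ p i q (o q) = t p i) →
    (E.card : ℝ) ≤ C * (∏ p ∈ m, (1 / 2 : ℝ) ^ (D.I p (τ p) j₀).card) * (h / Real.log Y)

/-- BLOCK CN: the primes with option outside `j₀` are not all small. -/
def StmtCountN : Prop :=
  ∀ (k : ℕ) (G : Type) [CommGroup G] (D : CD k G), Sys D.P D.nm →
    (∃ K : ℕ, ∀ p, (D.V p).card ≤ K) → BT D → ∀ j₀ : Fin k, Special D j₀ →
    (∀ J : Finset (Fin k), J = {j₀} ∨ TA D J ∨ TB D J) → ∀ ε : ℝ, 0 < ε → ε < 1 →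
    ∃ η C : ℝ, 0 < η ∧ 0 < C ∧ ∀ X : ℕ, 3 ≤ X → ∀ S : Finset (Finset D.P),
      (∀ c ∈ S, Nm D c ≤ X ∧ ∃ τ : D.P → D.O, BadT D c τ ∧
        ∃ p ∈ pf D c, D.cmp (τ p) ≠ j₀ ∧ Real.exp (Real.log X ^ ε) ≤ D.nm p) →
      (S.card : ℝ) ≤ C * X / Real.log X ^ η

/-- BLOCK CL: the primes with option outside `j₀` are small, but not all of them very small. -/
def StmtCountL : Prop :=
  ∀ (k : ℕ) (G : Type) [CommGroup G] (D : CD k G), Sys D.P D.nm →
    (∃ K : ℕ, ∀ p, (D.V p).card ≤ K) → BT D → ∀ j₀ : Fin k, Special D j₀ → BTR D j₀ →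
    (∀ J : Finset (Fin k), j₀ ∈ J → J ≠ {j₀} → TB D J) →
    ∃ ε η C : ℝ, 0 < ε ∧ ε < 1 ∧ 0 < η ∧ 0 < C ∧ ∀ X B : ℕ, 3 ≤ X → 2 ≤ B →
      ∀ S : Finset (Finset D.P), (∀ c ∈ S, Nm D c ≤ X ∧ ∃ τ : D.P → D.O, BadT D c τ ∧
        (∃ p ∈ pf D c, D.cmp (τ p) ≠ j₀ ∧ B ≤ D.nm p) ∧
        ∀ p ∈ pf D c, D.cmp (τ p) ≠ j₀ → (D.nm p : ℝ) ≤ Real.exp (Real.log X ^ ε)) →
      (S.card : ℝ) ≤ C * X * (1 / Real.log B ^ η + 1 / Real.log X ^ η)

end count

/-! ## The sieve -/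

/-- BLOCK BTLR: elements without prime factors between `K` and `Y`, with prescribed characters. -/
def StmtBTLR : Prop :=
  ∀ (k : Type) [Field k] [NumberField k] (K : ℝ), 1 ≤ K →
    ∃ (C : ℝ) (A h₀ : ℕ), 0 < C ∧ ∀ h Y : ℕ, h₀ ≤ h → 2 ≤ Y →
      Real.log Y ≤ Real.log h ^ (1 / 2 : ℝ) → ∀ MM : Finset (Pr k),
      (∀ q ∈ MM, Odd (nm q)) → (∏ q ∈ MM, nm q) ^ A ≤ h → ∀ η : Pr k → Prop,
      ∀ T : Finset (𝓞 k),
        (∀ x ∈ T, (∀ φ : k →+* ℂ, ‖φ x‖ ≤ K * (h : ℝ) ^ ((1 : ℝ) / Module.finrank ℚ k)) ∧ x ≠ 0 ∧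
          (∀ q : Pr k, K < nm q → nm q ≤ Y → x ∉ q.asIdeal) ∧
          ∀ q ∈ MM, x ∉ q.asIdeal ∧ (IsSquare (Ideal.Quotient.mk q.asIdeal x) ↔ η q)) →
        (T.card : ℝ) ≤ C * (1 / 2) ^ MM.card * (h / Real.log Y)

/-- BLOCK BTR: the hypothesis `BTR` for the counting problem of `f` and a root `a ∈ k`. -/
def StmtBTR : Prop :=
  StmtBTLR → StmtSel → ∀ (k L : Type) [Field k] [NumberField k] [Field L] [NumberField L]
    [Algebra k L] [IsGalois k L] (f : k[X]) (X : Ctx k L f) (a : k), eval a f = 0 →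
    ∀ (hm : 0 < X.m) (hfin : {v : Pr k | ¬ Gd X.M v}.Finite) (g : Pr k → L × ℤˣ → L → ℤˣ),
    BTR (X.cd hm hfin g) (X.cmp hm (algebraMap k L a))

/-! ## The primes which exclude a class -/

open scoped Classical in
/-- BLOCK NEG: if `e` is not a square in `k(θ, θ')` then for many primes `v` there is a place above `v`
with `θ`, `θ'` in the residue field of `v` and `e` not a square. -/
def StmtNeg : Prop :=
  StmtMert → ∀ (k L : Type) [Field k] [NumberField k] [Field L] [NumberField L] [Algebra k L]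
    [IsGalois k L] (M : ℕ), M ≠ 0 → ∀ θ θ' e : L, e ∈ k⟮θ, θ'⟯ → e ≠ 0 →
    (¬ ∃ d ∈ k⟮θ, θ'⟯, e = d ^ 2) →
    ∀ B : ℕ → Finset (Pr k), (∀ x v, v ∈ B x ↔ nm v ≤ x) →
    ∃ (δ C : ℝ) (Q : Set (Pr k)), 0 < δ ∧
      (∀ v ∈ Q, ∃ (p : ℕ) (P : Pr L), Over M p v P ∧ P.valuation L e = 1 ∧
        P.valuation L (θ ^ nm v - θ) < 1 ∧ P.valuation L (θ' ^ nm v - θ') < 1 ∧
        ¬ P.valuation L (e ^ ((nm v - 1) / 2) - 1) < 1) ∧
      ∀ x : ℕ, 2 ≤ x →
        δ * Real.log (Real.log x) - C ≤ ∑ v ∈ (B x).filter (· ∈ Q), (1 : ℝ) / nm v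

/-! ## The glue -/

/-- BLOCK G1P: the relations, with the data. -/
def StmtG1P : Prop :=
  StmtSel → ∀ (k L : Type) [Field k] [NumberField k] [Field L] [NumberField L] [Algebra k L]
    [IsGalois k L] (f : k[X]) (X : Ctx k L f), 4 ≤ f.natDegree →
    ∀ (hm : 0 < X.m) (hfin : {v : Pr k | ¬ Gd X.M v}.Finite),
    ∃ (H : Type) (_ : Finite H) (g : H → Pr k → L × ℤˣ → L → ℤˣ) (e : H → L → L → L),
      ∀ (c : k) (S : Finset (Pr k)) (D : L → L → L) (α : Pr k → 𝓞 k) (t : Pr k → L),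
      DatS X c S D α t → ∃ (h : H) (u : Pr k → ℤˣ),
        BadT (X.cd hm hfin (g h)) S (fun v => (t v, u v)) ∧
        ∀ ρ ∈ X.Ω, ∀ ρ' ∈ X.Ω, ρ ≠ ρ' → e h ρ ρ' ∈ k⟮ρ, ρ'⟯ ∧
          ∃ d ∈ k⟮ρ, ρ'⟯, D ρ ρ' * Zp X S t ρ * Zp X S t ρ' = e h ρ ρ' * d ^ 2

/-- the data agree with those of the rational point `(a, 0)` -/
def Triv {k L : Type} [Field k] [Field L] [Algebra k L] (f : k[X]) (a : k) (D : L → L → L) : Prop :=
  ∀ θ ∈ f.rootSet L, ∀ θ' ∈ f.rootSet L, θ ≠ θ' → θ ≠ algebraMap k L a → θ' ≠ algebraMap k L a →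
    ∃ d ∈ k⟮θ, θ'⟯, D θ θ' * ((algebraMap k L a - θ) * (algebraMap k L a - θ')) = d ^ 2

/-- BLOCK SM: all primes with root different from `a` are very small. -/
def StmtSmall : Prop :=
  StmtSel → StmtMert → StmtNeg → ∀ (k L : Type) [Field k] [NumberField k] [Field L] [NumberField L]
    [Algebra k L] [IsGalois k L] (f : k[X]) (X : Ctx k L f), 4 ≤ f.natDegree →
    ∀ a : k, eval a f = 0 → ∀ B : ℕ, ∃ η C : ℝ, 0 < η ∧ 0 < C ∧ ∀ x : ℕ, 3 ≤ x →
      ∀ S : Finset (Finset (Pr k)), (∀ s ∈ S, ∏ v ∈ s, nm v ≤ x ∧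
        ∃ (c : k) (D : L → L → L) (α : Pr k → 𝓞 k) (t : Pr k → L), DatS X c s D α t ∧
          ¬ Triv f a D ∧ ∀ v ∈ s, t v ≠ algebraMap k L a → nm v ≤ B) →
      (S.card : ℝ) ≤ C * x / Real.log x ^ η

/-- BLOCK G3P: the weights. -/
def StmtG3P : Prop :=
  StmtMert → StmtSplit → StmtDer → ∀ (k L : Type) [Field k] [NumberField k] [Field L]
    [NumberField L] [Algebra k L] [IsGalois k L] (f : k[X]) (X : Ctx k L f) (a : k), eval a f = 0 →
    (∀ θ ∈ X.Ω, θ ≠ algebraMap k L a → 4 ≤ (minpoly k θ).natDegree) →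
    ∀ (hm : 0 < X.m) (hfin : {v : Pr k | ¬ Gd X.M v}.Finite) (g : Pr k → L × ℤˣ → L → ℤˣ),
    Sys (Pr k) nm ∧ (∃ K : ℕ, ∀ p, ((X.cd hm hfin g).V p).card ≤ K) ∧
    Special (X.cd hm hfin g) (X.cmp hm (algebraMap k L a)) ∧
    (∀ J : Finset (Fin X.m), J = {X.cmp hm (algebraMap k L a)} ∨ TA (X.cd hm hfin g) J ∨
      TB (X.cd hm hfin g) J) ∧
    ∀ J : Finset (Fin X.m), X.cmp hm (algebraMap k L a) ∈ J →
      J ≠ {X.cmp hm (algebraMap k L a)} → TB (X.cd hm hfin g) J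

/-! ## Sections modulo 2 -/

/-- The section `s` of the function field `K ∋ x` agrees modulo `2` with the section of the rational
branch point `(a, 0)` of `y² = c f(x)`: for every other root `ρ` of `f`, over `k(ρ)`, it acts on the
square root of `(x - ρ)(x - a)` like the Galois group on the square root of `c f'(a) (a - ρ)`. -/
def Agrees {k K : Type} [Field k] [Field K] [Algebra k K] (s : GaloisSection k K) (x : K)
    (f : k[X]) (a c : k) : Prop :=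
  ∀ ρ : kbar k K, aeval ρ f = 0 → ρ ≠ algebraMap k (kbar k K) a → ∀ W : Kur k K,
    (W : AlgebraicClosure K) ^ 2 = (algebraMap K (AlgebraicClosure K) x - ρ) *
      algebraMap K (AlgebraicClosure K) (x - algebraMap k K a) →
    ∀ r : kbar k K, r ^ 2 = algebraMap k (kbar k K) (c * eval a (derivative f)) *
      (algebraMap k (kbar k K) a - ρ) →
    ∀ g : Gk k K, g ρ = ρ →
      (s.toHom g W : AlgebraicClosure K) * (r : AlgebraicClosure K) = W * (g r : AlgebraicClosure K)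

/-- some curve which maps onto `y² = c f(x)` has a section which does not agree modulo `2` with the
section of `(a, 0)` -/
def Other {k : Type} [Field k] (f : k[X]) (a c : k) : Prop :=
  ∃ (K : Type) (_ : Field K) (_ : Algebra k K) (x y : K), Transcendental k x ∧
    y ^ 2 = algebraMap k K c * aeval x f ∧ ∃ s : GaloisSection k K, ¬ Agrees s x f a c

/-- BLOCK AP: block A for a given section, and the comparison with `(a, 0)`. -/
def StmtAP : Prop :=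
  ∀ (k : Type) [Field k] [NumberField k] (f : k[X]), Even f.natDegree → 4 ≤ f.natDegree →
    f.Separable → ∀ (L : Type) [Field L] [NumberField L] [Algebra k L] [IsGalois k L],
    (f.map (algebraMap k L)).Splits →
    ∃ M : ℕ, M ≠ 0 ∧ ∀ (c a : k), c ≠ 0 → eval a f = 0 → Other f a c →
      ∃ (α : Pr k → 𝓞 k) (D : L → L → L), Bad f M c α D ∧ ¬ Triv f a D

/-- The final theorem of project HG2. -/
def StmtFinalP : Prop :=
  ∀ (k : Type) [Field k] [NumberField k] (f : k[X]), f.Separable → Even f.natDegree →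
    6 ≤ f.natDegree → ∀ a : k, eval a f = 0 →
    (∀ θ : AlgebraicClosure k, aeval θ f = 0 → θ ≠ algebraMap k (AlgebraicClosure k) a →
      4 ≤ (minpoly k θ).natDegree) →
    ∀ ε : ℝ, 0 < ε → ∀ᶠ X : ℕ in atTop, ∀ T : Finset k,
      (∀ c ∈ T, ∀ c' ∈ T, (∃ d : k, c = c' * d ^ 2) → c = c') →
      (∀ c ∈ T, c ≠ 0 ∧ cond c ≤ X ∧ Other f a c) → (T.card : ℝ) ≤ ε * X

end

end Pool.Agent.HG
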