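import Pool.Agent.Helper13.HG2.Odd
import Pool.Agent.Helper45.HG.RatioR

/-!
# The ratio, for an arbitrary property
-/

set_option autoImplicit false

namespace Pool.Agent.HG

open Polynomial NumberField IsDedekindDomain Filter Topology WithZero

noncomputable section

/-- the classes with a representative with `cond ≤ X` and the property `P` -/
def clsP {k : Type} [Field k] [NumberField k] (P : k → Prop) (X : ℕ) : Set (Cls k) :=
  {C | ∃ c : kˣ, (c : Cls k) = C ∧ cond (c : k) ≤ X ∧ P (c : k)}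

theorem ratioP (hSel : StmtSel) (k : Type) [Field k] [NumberField k] (P : k → Prop)
    (h : ∀ ε : ℝ, 0 < ε → ∀ᶠ X : ℕ in atTop, ∀ T : Finset k,
      (∀ c ∈ T, ∀ c' ∈ T, (∃ d : k, c = c' * d ^ 2) → c = c') →
      (∀ c ∈ T, c ≠ 0 ∧ cond c ≤ X ∧ P c) → (T.card : ℝ) ≤ ε * X) :
    Tendsto (fun X : ℕ => (Nat.card (clsP P X) : ℝ) / Nat.card (clsLE k X)) atTop (𝓝 0) := by
  classical
  have hfin : ∀ X, (clsLE k X).Finite := clsLE_finite hSel
  obtain ⟨δ, hδ, hlow⟩ := clsLE_card_ge (k := k) hSel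
  have hfin' : ∀ X, (clsP P X).Finite := fun X => (hfin X).subset fun C hC => by
    obtain ⟨c, h1, h2, -⟩ := hC
    exact ⟨c, h1, h2⟩
  have hup : ∀ ε : ℝ, 0 < ε → ∀ᶠ X : ℕ in atTop, (Nat.card (clsP P X) : ℝ) ≤ ε * X := by
    intro ε hε
    filter_upwards [h ε hε] with X hX
    have hch : ∀ C : Cls k, ∃ c : kˣ, C ∈ clsP P X →
        (c : Cls k) = C ∧ cond (c : k) ≤ X ∧ P (c : k) := by
      intro C
      by_cases hC : C ∈ clsP P X
      · obtain ⟨c, hc⟩ := hC
        exact ⟨c, fun _ => hc⟩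
      · exact ⟨1, fun h => absurd h hC⟩
    choose r hr using hch
    have hinj : ∀ C ∈ clsP P X, ∀ C' ∈ clsP P X,
        (∃ d : k, (r C : k) = (r C' : k) * d ^ 2) → C = C' := by
      intro C hC C' hC' hd
      rw [← (hr C hC).1, ← (hr C' hC').1]
      exact cls_eq_iff.2 hd
    have h1 := hX ((hfin' X).toFinset.image fun C => (r C : k)) (by
      intro c hc c' hc' hd
      obtain ⟨C, hC, rfl⟩ := Finset.mem_image.1 hc
      obtain ⟨C', hC', rfl⟩ := Finset.mem_image.1 hc'
      rw [hinj C ((hfin' X).mem_toFinset.1 hC) C' ((hfin' X).mem_toFinset.1 hC') hd]) (by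
      intro c hc
      obtain ⟨C, hC, rfl⟩ := Finset.mem_image.1 hc
      exact ⟨(r C).ne_zero, (hr C ((hfin' X).mem_toFinset.1 hC)).2⟩)
    rw [Finset.card_image_of_injOn] at h1
    · have h2 : Nat.card (clsP P X) = (hfin' X).toFinset.card :=
        Nat.card_eq_card_finite_toFinset (hfin' X)
      rw [h2]
      exact h1
    · intro C hC C' hC' h
      exact hinj C ((hfin' X).mem_toFinset.1 hC) C' ((hfin' X).mem_toFinset.1 hC')
        ⟨1, by rw [one_pow, mul_one]; exact h⟩
  rw [tendsto_order]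
  refine ⟨fun a ha => Eventually.of_forall fun X => lt_of_lt_of_le ha (by positivity), ?_⟩
  intro a ha
  filter_upwards [hup (a * δ / 2) (by positivity), eventually_gt_atTop 0] with X h1 hX
  have h2 := hlow X hX
  have hX' : (0 : ℝ) < X := by exact_mod_cast hX
  have h3 : (0 : ℝ) < Nat.card (clsLE k X) := lt_of_lt_of_le (by positivity) h2
  rw [div_lt_iff₀ h3]
  calc (Nat.card (clsP P X) : ℝ) ≤ a * δ / 2 * X := h1
    _ = a / 2 * (δ * X) := by ring
    _ ≤ a / 2 * Nat.card (clsLE k X) := mul_le_mul_of_nonneg_left h2 (by positivity)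
    _ < a * Nat.card (clsLE k X) := by nlinarith

/-- The theorem for odd degree, with the ratio. -/
theorem ratioOdd (hSel : StmtSel) (h : StmtFinalOdd) (k : Type) [Field k] [NumberField k] (f : k[X])
    (hsep : f.Separable) (hodd : Odd f.natDegree) (h5 : 5 ≤ f.natDegree)
    (hdeg : ∀ θ : AlgebraicClosure k, aeval θ f = 0 → 4 ≤ (minpoly k θ).natDegree) :
    Tendsto (fun X : ℕ => (Nat.card (clsP (OtherInf f) X) : ℝ) / Nat.card (clsLE k X)) atTop (𝓝 0) :=
  ratioP hSel k (OtherInf f) (h k f hsep hodd h5 hdeg)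

end

end Pool.Agent.HG
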