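import Pool.Agent.Helper13.HG2.Defs

/-!
# Project HG2, block G1P: the relations, with the data
-/

set_option autoImplicit false

namespace Pool.Agent.HG

open Polynomial NumberField IsDedekindDomain
open scoped Pointwise IntermediateField

section final

variable {k L : Type} [Field k] [NumberField k] [Field L] [NumberField L] [Algebra k L]
  [IsGalois k L] {f : k[X]} (X : Ctx k L f)

open scoped Classical in
theorem badT_of (hm : 0 < X.m) (hfin : {v : Pr k | ¬ Gd X.M v}.Finite)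
    (g : Pr k → L × ℤˣ → L → ℤˣ) (S : Finset (Pr k)) (hS : ∀ v ∈ S, Gd X.M v) (t : Pr k → L)
    (u : Pr k → ℤˣ) (ht : ∀ v ∈ S, t v ∈ X.Ω ∧ X.F v (t v) = t v)
    (h : ∀ v ∈ S, ∀ ρ ∈ X.R v, ρ ≠ t v →
      ∏ q ∈ S.filter (fun q => q ≠ v ∧ X.cmp hm (t q) = X.cmp hm ρ),
        X.ch v (X.len v ρ) (aeval ρ (X.B q (t q))) = g v (t v, u v) ρ) :
    BadT (X.cd hm hfin g) S (fun v => (t v, u v)) := by
  have hpf : Pool.Agent.Helper99.HG.pf (X.cd hm hfin g) S = S := by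
    unfold Pool.Agent.Helper99.HG.pf
    refine Finset.filter_true_of_mem fun v hv => ?_
    intro h1
    exact (hfin.mem_toFinset.1 h1) (hS v hv)
  unfold BadT
  rw [hpf]
  intro (v : Pr k) hv
  refine ⟨?_, ?_⟩
  · refine Finset.mem_product.2 ⟨?_, Finset.mem_univ _⟩
    exact Finset.mem_filter.2 (ht v hv)
  intro j (ρ : L) hρ
  obtain ⟨hρt, hρ2⟩ := Finset.mem_erase.1 hρ
  have hρ3 : ρ ∈ X.R v ∧ X.cmp hm ρ = j := by
    exact (@Finset.mem_filter L (fun ρ => X.cmp hm ρ = j) (fun a => instDecidableEqFin _ _ _)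
      (X.R v) ρ).1 hρ2
  obtain ⟨hρR, hρj⟩ := hρ3
  subst hρj
  refine Eq.trans ?_ (h v hv ρ hρR hρt)
  refine Finset.prod_congr ?_ fun _ _ => rfl
  refine Finset.ext fun (q : Pr k) => ⟨fun h1 => ?_, fun h1 => ?_⟩
  · exact (@Finset.mem_filter _ _ _ _ _).2 ((@Finset.mem_filter _ _ _ _ _).1 h1)
  · exact (@Finset.mem_filter _ _ _ _ _).2 ((@Finset.mem_filter _ _ _ _ _).1 h1)

theorem g1P : StmtG1P := by
  intro hsel k L _ _ _ _ _ _ f X h4 hm hfin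
  classical
  -- the finite lists of classes
  choose Fs hFs1 hFs2 using fun θ θ' : L => hsel k L k⟮θ, θ'⟯ X.M X.hM
  set FF : Finset L := insert 1 ((X.Ω ×ˢ X.Ω).biUnion fun x => Fs x.1 x.2) with hFF
  set hh : (X.Ω → X.Ω → FF) → L → L → L := fun h a b =>
    if hab : a ∈ X.Ω ∧ b ∈ X.Ω then (h ⟨a, hab.1⟩ ⟨b, hab.2⟩ : L) else 1 with hhh
  refine ⟨X.Ω → X.Ω → FF, inferInstance, fun h => gg X hm (hh h), hh, ?_⟩
  intro c S D α t hdat
  -- the classes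
  have he : ∀ θ θ' : L, ∃ e : L, e ∈ FF ∧ (θ ∈ X.Ω → θ' ∈ X.Ω → θ ≠ θ' → e ∈ k⟮θ, θ'⟯ ∧
      ∃ d ∈ k⟮θ, θ'⟯, D θ θ' * Zp X S t θ * Zp X S t θ' = e * d ^ 2) := by
    intro θ θ'
    by_cases h1 : θ ∈ X.Ω ∧ θ' ∈ X.Ω ∧ θ ≠ θ'
    · obtain ⟨h1, h2, h3⟩ := h1
      obtain ⟨e, he, d, hd, hz⟩ := hFs2 θ θ' _ (hdat.z_mem h1 h2 h3) (hdat.z_ne h1 h2 h3)
        (hdat.ev_z h1 h2 h3)
      exact ⟨e, Finset.mem_insert_of_mem (Finset.mem_biUnion.2 ⟨(θ, θ'),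
        Finset.mem_product.2 ⟨h1, h2⟩, he⟩), fun _ _ _ => ⟨(hFs1 θ θ' e he).1, d, hd, hz⟩⟩
    · exact ⟨1, Finset.mem_insert_self _ _, fun h2 h3 h4 => absurd ⟨h2, h3, h4⟩ h1⟩
  choose e heF he using he
  have hhe : ∀ {a b : L}, a ∈ X.Ω → b ∈ X.Ω →
      hh (fun a b => ⟨e a b, heF a b⟩) a b = e a b := by
    intro a b ha hb
    rw [hhh]
    exact dif_pos ⟨ha, hb⟩
  -- the options
  set u : Pr k → ℤˣ := fun v => ∏ q ∈ S.filter
    (fun q => minpoly k (t q) = minpoly k (X.st v (t v))),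
      X.ch v (X.len v (X.st v (t v))) (aeval (X.st v (t v)) (X.B q (t q))) with hu
  refine ⟨fun a b => ⟨e a b, heF a b⟩, u, ?_, fun ρ hρ ρ' hρ' hne => ?_⟩
  swap
  · rw [hhe hρ hρ']
    exact he ρ ρ' hρ hρ' hne
  refine badT_of X hm hfin _ S (fun v hv => ((hdat.hS v).1 hv).1) t u
    (fun v hv => ⟨hdat.t_mem v hv, hdat.t_fix v hv⟩) ?_
  intro v hv ρ hρR hρt
  have hρΩ := X.R_subset v hρR
  have htΩ := hdat.t_mem v hv
  -- the product over `q ≠ v`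
  have hprod : ∏ q ∈ S.filter (fun q => q ≠ v ∧ X.cmp hm (t q) = X.cmp hm ρ),
      X.ch v (X.len v ρ) (aeval ρ (X.B q (t q))) =
      (∏ q ∈ S.filter (fun q => minpoly k (t q) = minpoly k ρ),
        X.ch v (X.len v ρ) (aeval ρ (X.B q (t q)))) *
      (if X.cmp hm (t v) = X.cmp hm ρ then X.ch v (X.len v ρ) (aeval ρ (X.B v (t v))) else 1) := by
    have h1 : S.filter (fun q => q ≠ v ∧ X.cmp hm (t q) = X.cmp hm ρ) =
        (S.filter (fun q => minpoly k (t q) = minpoly k ρ)).erase v := by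
      ext q
      simp only [Finset.mem_filter, Finset.mem_erase]
      constructor
      · rintro ⟨h1, h2, h3⟩
        exact ⟨h2, h1, (X.cmp_eq hm (hdat.t_mem q h1) hρΩ).1 h3⟩
      · rintro ⟨h2, h1, h3⟩
        exact ⟨h1, h2, (X.cmp_eq hm (hdat.t_mem q h1) hρΩ).2 h3⟩
    rw [h1]
    split_ifs with h2
    · have h3 : v ∈ S.filter (fun q => minpoly k (t q) = minpoly k ρ) :=
        Finset.mem_filter.2 ⟨hv, (X.cmp_eq hm htΩ hρΩ).1 h2⟩
      rw [← Finset.prod_erase_mul _ _ h3, mul_assoc, Int.units_mul_self, mul_one]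
    · have h3 : v ∉ S.filter (fun q => minpoly k (t q) = minpoly k ρ) := fun h3 =>
        h2 ((X.cmp_eq hm htΩ hρΩ).2 (Finset.mem_filter.1 h3).2)
      rw [Finset.erase_eq_of_notMem h3, mul_one]
  rw [hprod]
  unfold gg
  congr 1
  split_ifs with h1
  · have h1' : ρ = X.st v (t v) := h1
    rw [h1']
  · have hst := X.st_mem h4 (hdat.t_fix v hv)
    have hsΩ := X.R_subset v (Finset.mem_erase.1 hst).2
    obtain ⟨he1, d, hd, hz⟩ := he ρ (X.st v (t v)) hρΩ hsΩ h1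
    have h5 : hh (fun a b => ⟨e a b, heF a b⟩) ρ (X.st v (t v)) = e ρ (X.st v (t v)) :=
      hhe hρΩ hsΩ
    change _ = X.chE v _ (hh (fun a b => ⟨e a b, heF a b⟩) ρ (X.st v (t v))) * _ * _
    rw [h5]
    exact hdat.rel h4 hv (Finset.mem_erase.2 ⟨hρt, hρR⟩) h1 he1 hd hz

end final

end Pool.Agent.HG
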