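import Pool.Agent.Helper13.HG2.Final
import Pool.Agent.Helper13.HG2.G1P
import Pool.Agent.Helper13.HG2.RatioP
import Pool.Agent.Helper13.HG.All
import Pool.Agent.Helper45.HG2.AP
import Pool.Agent.Helper5.HG2.BTLR
import Pool.Agent.Helper22.HG2.G3P
import Pool.Agent.Helper29.HG2.SM
import Pool.Agent.Helper29.HG2.Neg
import Pool.Agent.Helper97.HG2.CN
import Pool.Agent.Helper99.HG2.CL
import Pool.Agent.Helper88.HG2.BTR

/-!
# Project HG2: the assembly
-/

set_option autoImplicit false

namespace Pool.Agent.HG

/-- The final theorem from the open block. -/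
theorem finalP_of (hBTR : StmtBTR) : StmtFinalP :=
  g5P stmtAP sel Pool.Agent.Helper97.HG2.countN Pool.Agent.Helper99.HG2.countL g1P g2 g3P
    Pool.Agent.Helper88.HG.g4 hBTR (btlr Pool.Agent.Helper21.HG.mert) small29 neg29
    Pool.Agent.Helper88.HG.thue (btl Pool.Agent.Helper21.HG.mert) Pool.Agent.Helper21.HG.mert
    Pool.Agent.Helper21.HG.split Pool.Agent.Helper22.HG.der

/-- **The final theorem of project HG2.** -/
theorem finalP : StmtFinalP := finalP_of btr

/-- The theorem for odd degree. -/
theorem finalOdd : StmtFinalOdd := finalOdd_of_finalP finalP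

end Pool.Agent.HG
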