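import Pool.Agent.Helper13.HG2.Odd
import Pool.Agent.Helper88.HG.Conv

/-!
# The section of the point at infinity
-/

set_option autoImplicit false
set_option linter.unusedSectionVars false

namespace Pool.Agent.HG

open Polynomial NumberField IsDedekindDomain Pool.Agent.Helper91.Sect Pool.Agent.Helper88.HG

noncomputable section

section place

variable {k K : Type} [Field k] [Field K] [Algebra k K]

/-- **A rational place gives a Galois section**, induced by elements of the decomposition group. -/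
theorem section_of_place' [CharZero k] (V : ValuationSubring K)
    (hk : ∀ c : k, algebraMap k K c ∈ V)
    (hres : ∀ z ∈ V, ∃ c : k, V.valuation (z - algebraMap k K c) < 1) :
    ∃ (s : GaloisSection k K) (W : ValuationSubring (AlgebraicClosure K)),
      (∀ c : k, algebraMap k (AlgebraicClosure K) c ∈ W) ∧
      (∀ z : K, V.valuation z < 1 → W.valuation (algebraMap K (AlgebraicClosure K) z) < 1) ∧
      ∀ σ : Gk k K, ∃ τ : AlgebraicClosure K ≃ₐ[K] AlgebraicClosure K,
        (∀ z, τ z ∈ W ↔ z ∈ W) ∧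
        ∀ w : Kur k K, (s.toHom σ w : AlgebraicClosure K) = τ w := by
  classical
  have hK : CharZero K := charZero_of_injective_algebraMap (algebraMap k K).injective
  have hgal : IsGalois K (AlgebraicClosure K) := IsAlgClosure.isGalois K _
  have hnor : Normal K (Kur k K) := Pool.Agent.TW.normal_Kur
  obtain ⟨Q, hQ, hQV⟩ := exists_Q (C := AlgebraicClosure K) V
  obtain ⟨D, hDdef⟩ : ∃ D, D = DQ (C := AlgebraicClosure K) V Q := ⟨_, rfl⟩
  have hD : IsClosed (D : Set (AlgebraicClosure K ≃ₐ[K] AlgebraicClosure K)) := by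
    rw [hDdef]
    exact isClosed_DQ V Q
  have hW : ∀ c : k, algebraMap k (AlgebraicClosure K) c ∈ locW Q := fun c =>
    coe_mem_locW Q (constB V hk (algebraMap k (algebraicClosure k (AlgebraicClosure K)) c))
  have hlift : ∀ σ : Gk k K, ∃ τ ∈ D, ∀ z : kbar k K, τ (z : AlgebraicClosure K) = σ z := by
    rw [hDdef]
    exact exists_lift_DQ V Q hQV hk hres
  have hin : ∀ τ ∈ D, (∀ z : kbar k K, τ (z : AlgebraicClosure K) = z) →
      (∀ z, τ z ∈ locW Q ↔ z ∈ locW Q) ∧ ∀ z ∈ locW Q, (locW Q).valuation (τ z - z) < 1 := by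
    intro τ hτ h1
    rw [hDdef] at hτ
    exact inertia_of_const V Q hQV hk hres hτ h1
  let r : D →* Gk k K := (resK k K).comp D.subtype
  let π : D →* Pi1 k K := (AlgEquiv.restrictNormalHom (Kur k K)).comp D.subtype
  have hπ : ∀ (τ : D) (w : Kur k K), ((π τ w : Kur k K) : AlgebraicClosure K) = τ.1 w := by
    intro τ w
    exact AlgEquiv.restrictNormal_commutes τ.1 (Kur k K) w
  have hrz : ∀ (τ : D) (z : kbar k K), ((r τ z : kbar k K) : AlgebraicClosure K) = τ.1 z :=
    fun τ z => coe_resK τ.1 z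
  have hr : Function.Surjective r := by
    intro σ
    obtain ⟨τ, h1, h2⟩ := hlift σ
    refine ⟨⟨τ, h1⟩, ?_⟩
    apply AlgEquiv.ext
    intro z
    apply Subtype.ext
    rw [hrz]
    exact h2 z
  have hker : r.ker ≤ π.ker := by
    intro τ hτ
    rw [MonoidHom.mem_ker] at hτ ⊢
    apply AlgEquiv.ext
    intro w
    apply Subtype.ext
    rw [hπ]
    refine w.2 (locW Q) hW τ.1 (hin τ.1 τ.2 fun z => ?_)
    rw [← hrz, hτ]
    rfl
  let s : Gk k K →* Pi1 k K := r.liftOfSurjective hr ⟨π, hker⟩
  have hs : ∀ τ : D, s (r τ) = π τ := fun τ => r.liftOfRightInverse_comp_apply _ _ ⟨π, hker⟩ τ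
  refine ⟨⟨s, ?_, ?_⟩, locW Q, hW, ?_, ?_⟩
  · have hD : CompactSpace D := isCompact_iff_compactSpace.1 hD.isCompact
    have hrc : Continuous r := continuous_resK.comp continuous_subtype_val
    have hπc : Continuous π :=
      (InfiniteGalois.restrictNormalHom_continuous (Kur k K)).comp continuous_subtype_val
    have hq : Topology.IsQuotientMap r := (hrc.isClosedMap).isQuotientMap hrc hr
    rw [hq.continuous_iff]
    have h1 : (s : Gk k K → Pi1 k K) ∘ r = π := funext hs
    rw [h1]
    exact hπc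
  · intro σ z w hw
    obtain ⟨τ, rfl⟩ := hr σ
    rw [hs, hπ, hw]
    exact (hrz τ z).symm
  · intro z hz
    have hzV : z ∈ V := (V.valuation_le_one_iff z).1 hz.le
    have h0 : (⟨z, hzV⟩ : V) ∈ IsLocalRing.maximalIdeal V := by
      rw [ValuationSubring.valuation_lt_one_iff]
      exact hz
    have h1 : (⟨z, hzV⟩ : V) ∈
        Q.comap (algebraMap V (integralClosure V (AlgebraicClosure K))) :=
      (SetLike.ext_iff.1 hQV _).2 h0
    exact (val_coe_lt_one_iff Q (algebraMap V (integralClosure V (AlgebraicClosure K))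
      (⟨z, hzV⟩ : V))).2 h1
  · intro σ
    obtain ⟨τ, rfl⟩ := hr σ
    refine ⟨τ.1, ?_, fun w => ?_⟩
    · have h1 : ∀ τ' ∈ D, ∀ z, τ' z ∈ locW Q ↔ z ∈ locW Q := by
        rw [hDdef]
        exact fun τ' h => stab_locW Q h
      exact h1 τ.1 τ.2
    · change ((s (r τ) w : Kur k K) : AlgebraicClosure K) = τ.1 w
      rw [hs, hπ]

end place

section inf

variable {k K : Type} [Field k] [Field K] [Algebra k K]

/-- the square roots of `c a₀ (x - ρ)` are in the maximal unramified extension -/
theorem exists_W_inf [CharZero k] {x y : K} {f : k[X]} {c : k} (hc : c ≠ 0)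
    (hx : Transcendental k x) (hsep : f.Separable) (h0 : f.coeff 0 ≠ 0) (hodd : Odd f.natDegree)
    (hxy : y ^ 2 = algebraMap k K c * aeval x f) {ρ : kbar k K} (hρ : aeval ρ f = 0) :
    ∃ W : Kur k K, (W : AlgebraicClosure K) ^ 2 =
      algebraMap k (AlgebraicClosure K) (c * f.leadingCoeff) *
        (algebraMap K (AlgebraicClosure K) x - ρ) := by
  classical
  have hf0 : f ≠ 0 := hsep.ne_zero
  have hx0 : x ≠ 0 := by
    rintro rfl
    exact hx isAlgebraic_zero
  have hgsep : (X * f.reverse : k[X]).Separable := by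
    rw [PerfectField.separable_iff_squarefree]
    exact reverse_squarefree h0 hsep.squarefree
  obtain ⟨m, hm⟩ := hodd
  have hcK : algebraMap k K c ≠ 0 := (_root_.map_ne_zero _).2 hc
  have hxy' : algebraMap k K c * (y * x⁻¹ ^ (m + 1) / algebraMap k K c) ^ 2 =
      aeval x⁻¹ (X * f.reverse) := by
    have h1 := eval_reverse f hx0
    rw [hm] at h1
    have h2 := pow_inv_aux hx0 m
    rw [div_pow, mul_pow, hxy, ← h1, map_mul, aeval_X]
    calc algebraMap k K c * (algebraMap k K c * (aeval x⁻¹ f.reverse * x ^ (2 * m + 1)) *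
          (x⁻¹ ^ (m + 1)) ^ 2 / algebraMap k K c ^ 2) =
        aeval x⁻¹ f.reverse * (x ^ (2 * m + 1) * (x⁻¹ ^ (m + 1)) ^ 2) *
          (algebraMap k K c ^ 2 / algebraMap k K c ^ 2) := by ring
      _ = x⁻¹ * aeval x⁻¹ f.reverse := by
          rw [h2, div_self (pow_ne_zero 2 hcK), mul_one, mul_comm]
  have hu : Transcendental k x⁻¹ := fun hh => hx (by simpa using hh.inv)
  obtain ⟨d, -⟩ := exists_crv hu hgsep hc hxy'
  have hρ0 : ρ ≠ 0 := by
    rintro rfl
    rw [aeval_def, eval₂_at_zero] at hρ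
    exact h0 ((_root_.map_eq_zero _).1 hρ)
  have hρ' : aeval ρ⁻¹ (X * f.reverse) = 0 := by
    have h1 := eval_reverse f hρ0
    rw [hρ] at h1
    rw [map_mul, (mul_eq_zero.1 h1).resolve_right (pow_ne_zero _ hρ0), mul_zero]
  have hzero : aeval (0 : kbar k K) (X * f.reverse) = 0 := by
    rw [map_mul, aeval_X, zero_mul]
  have hWm : d.v ρ⁻¹ * d.v 0 ∈ Kur k K :=
    prod_mem_Kur d.a0_ne d.c_ne d.heq d.hv ((d.hR _).2 hρ') ((d.hR _).2 hzero)
  obtain ⟨W', hW'⟩ : ∃ W' : Kur k K, W' = ⟨_, hWm⟩ := ⟨_, rfl⟩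
  have hW'2 : (W' : AlgebraicClosure K) ^ 2 =
      (algebraMap K (AlgebraicClosure K) x⁻¹ - ((ρ⁻¹ : kbar k K) : AlgebraicClosure K)) *
      algebraMap K (AlgebraicClosure K) (x⁻¹ - algebraMap k K 0) := by
    have h1 : (W' : AlgebraicClosure K) = d.v ρ⁻¹ * d.v 0 := by rw [hW']
    rw [h1, mul_pow, d.hv, d.hv, map_zero (algebraMap k K), sub_zero]
    congr 1
    exact sub_zero _
  have hlc : f.leadingCoeff ≠ 0 := leadingCoeff_ne_zero.2 hf0
  obtain ⟨l, hl⟩ : ∃ l : kbar k K, l = algebraMap k (kbar k K) (c * f.leadingCoeff) := ⟨_, rfl⟩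
  have hl0 : l ≠ 0 := by
    rw [hl]
    exact (_root_.map_ne_zero _).2 (mul_ne_zero hc hlc)
  obtain ⟨r, hr⟩ : ∃ r : kbar k K, r ^ 2 = l * (0 - ρ⁻¹) := IsAlgClosed.exists_pow_nat_eq _ two_pos
  have hr0 : r ≠ 0 := by
    rintro rfl
    rw [zero_pow two_ne_zero, eq_comm, zero_sub, mul_neg, neg_eq_zero] at hr
    exact mul_ne_zero hl0 (inv_ne_zero hρ0) hr
  refine ⟨W' * toKur k K l * algebraMap K (Kur k K) x / toKur k K r, ?_⟩
  have h1 : ((W' * toKur k K l * algebraMap K (Kur k K) x / toKur k K r : Kur k K) :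
      AlgebraicClosure K) = (W' : AlgebraicClosure K) * (l : AlgebraicClosure K) *
      algebraMap K (AlgebraicClosure K) x / (r : AlgebraicClosure K) := rfl
  have h2 : (r : AlgebraicClosure K) ^ 2 =
      (l : AlgebraicClosure K) * (0 - (ρ : AlgebraicClosure K)⁻¹) := by
    have h3 := congrArg (fun z : kbar k K => (z : AlgebraicClosure K)) hr
    simpa using h3
  have h4 : (l : AlgebraicClosure K) = algebraMap k (AlgebraicClosure K) (c * f.leadingCoeff) := by
    rw [hl]
    rfl
  have hρK : (ρ : AlgebraicClosure K) ≠ 0 := fun h => hρ0 (Subtype.ext h)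
  have hlK : (l : AlgebraicClosure K) ≠ 0 := fun h => hl0 (Subtype.ext h)
  have hxK : algebraMap K (AlgebraicClosure K) x ≠ 0 := (_root_.map_ne_zero _).2 hx0
  have h5 : ((ρ⁻¹ : kbar k K) : AlgebraicClosure K) = (ρ : AlgebraicClosure K)⁻¹ := rfl
  rw [h1, div_pow, mul_pow, mul_pow, hW'2, h2, ← h4, h5, map_zero (algebraMap k K), sub_zero,
    map_inv₀]
  field_simp
  ring

/-- The section of a rational place at infinity agrees with itself. -/
theorem agreesInf_place [CharZero k] (V : ValuationSubring K) (hk : ∀ c : k, algebraMap k K c ∈ V)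
    (hres : ∀ z ∈ V, ∃ c : k, V.valuation (z - algebraMap k K c) < 1) {x y : K} {f : k[X]} {c : k}
    (hc : c ≠ 0) (hx : Transcendental k x) (hsep : f.Separable) (h0 : f.coeff 0 ≠ 0)
    (hodd : Odd f.natDegree) (hxy : y ^ 2 = algebraMap k K c * aeval x f)
    (hinf : V.valuation x⁻¹ < 1) : ∃ s : GaloisSection k K, AgreesInf s x f c := by
  classical
  obtain ⟨s, W, hW, hVW, hs⟩ := section_of_place' V hk hres
  refine ⟨s, fun ρ hρ => ?_⟩
  obtain ⟨w, hw⟩ := exists_W_inf hc hx hsep h0 hodd hxy hρ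
  refine ⟨w, hw, fun g hg => ?_⟩
  have hx0 : x ≠ 0 := by
    rintro rfl
    exact hx isAlgebraic_zero
  have hlc : f.leadingCoeff ≠ 0 := leadingCoeff_ne_zero.2 hsep.ne_zero
  obtain ⟨m, hm⟩ := hodd
  obtain ⟨e, he⟩ : ∃ e : k, e = c * f.leadingCoeff := ⟨_, rfl⟩
  have he0 : e ≠ 0 := by
    rw [he]
    exact mul_ne_zero hc hlc
  -- notation
  obtain ⟨xC, hxC⟩ : ∃ xC, xC = algebraMap K (AlgebraicClosure K) x := ⟨_, rfl⟩
  obtain ⟨yC, hyC⟩ : ∃ yC, yC = algebraMap K (AlgebraicClosure K) y := ⟨_, rfl⟩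
  have hxC0 : xC ≠ 0 := by
    rw [hxC]
    exact (_root_.map_ne_zero _).2 hx0
  have hf0x : aeval x f ≠ 0 := by
    intro h
    exact hx ⟨f, hsep.ne_zero, h⟩
  have hy0 : y ≠ 0 := by
    rintro rfl
    rw [zero_pow two_ne_zero, eq_comm] at hxy
    exact mul_ne_zero ((_root_.map_ne_zero _).2 hc) hf0x hxy
  have hyC0 : yC ≠ 0 := by
    rw [hyC]
    exact (_root_.map_ne_zero _).2 hy0
  have hu : W.valuation xC⁻¹ < 1 := by
    rw [hxC, ← map_inv₀]
    exact hVW _ hinf
  have huW : xC⁻¹ ∈ W := (W.valuation_le_one_iff _).1 hu.le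
  have hρW : W.valuation (ρ : AlgebraicClosure K) ≤ 1 :=
    (W.valuation_le_one_iff _).2 (const_mem hW (mem_algebraicClosure_iff.1 ρ.2))
  -- the square
  obtain ⟨η, hη⟩ : ∃ η : AlgebraicClosure K, η = (w : AlgebraicClosure K) * xC ^ m / yC := ⟨_, rfl⟩
  obtain ⟨R, hR⟩ : ∃ R : AlgebraicClosure K, R = aeval xC⁻¹ f.reverse := ⟨_, rfl⟩
  have hlcv : W.valuation (algebraMap k (AlgebraicClosure K) f.leadingCoeff) = 1 :=
    const_val_eq_one hW (isAlgebraic_algebraMap _) ((_root_.map_ne_zero _).2 hlc)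
  have hRl : W.valuation (R - algebraMap k (AlgebraicClosure K) f.leadingCoeff) < 1 := by
    have h1 : R - algebraMap k (AlgebraicClosure K) f.leadingCoeff =
        xC⁻¹ * aeval xC⁻¹ f.reverse.divX := by
      rw [hR]
      conv_lhs => rw [← divX_mul_X_add f.reverse]
      rw [map_add, map_mul, aeval_X, aeval_C, coeff_zero_reverse]
      ring
    have h2 : aeval xC⁻¹ f.reverse.divX ∈ W := by
      rw [aeval_eq_sum_range]
      refine W.toSubring.sum_mem fun i _ => ?_
      rw [Algebra.smul_def]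
      exact W.mul_mem _ _ (hW _) (pow_mem huW i)
    rw [h1, map_mul]
    exact mul_lt_one_of_nonneg_of_lt_one_left zero_le hu ((W.valuation_le_one_iff _).2 h2)
  have hR1 : W.valuation R = 1 := by
    have h1 : R = (R - algebraMap k (AlgebraicClosure K) f.leadingCoeff) +
      algebraMap k (AlgebraicClosure K) f.leadingCoeff := by ring
    rw [h1, Valuation.map_add_eq_of_lt_right _ (by rw [hlcv]; exact hRl), hlcv]
  have hR0 : R ≠ 0 := by
    rintro rfl
    rw [map_zero] at hR1
    exact zero_ne_one hR1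
  have hfx : yC ^ 2 = algebraMap k (AlgebraicClosure K) c * (xC ^ (2 * m + 1) * R) := by
    have h1 := congrArg (algebraMap K (AlgebraicClosure K)) hxy
    rw [map_pow, map_mul, ← aeval_algebraMap_apply, ← hxC, ← hyC,
      ← IsScalarTower.algebraMap_apply] at h1
    have h2 := eval_reverse f hxC0
    rw [← hR, hm] at h2
    rw [h1, ← h2]
    ring
  have hcC : algebraMap k (AlgebraicClosure K) c ≠ 0 := (_root_.map_ne_zero _).2 hc
  have hη2 : η ^ 2 - 1 = (-(algebraMap k (AlgebraicClosure K) f.leadingCoeff * ρ * xC⁻¹) -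
      (R - algebraMap k (AlgebraicClosure K) f.leadingCoeff)) / R := by
    rw [hη, div_pow, mul_pow, hw, hfx, ← hxC, map_mul]
    field_simp
    ring
  have hval : W.valuation (η ^ 2 - 1) < 1 := by
    rw [hη2, map_div₀, hR1, div_one]
    refine lt_of_le_of_lt (Valuation.map_sub _ _ _) (max_lt ?_ hRl)
    rw [Valuation.map_neg, map_mul, map_mul, hlcv, one_mul]
    exact mul_lt_one_of_nonneg_of_lt_one_right hρW zero_le hu
  have hη1 : ∃ ε : AlgebraicClosure K, (ε = 1 ∨ ε = -1) ∧ W.valuation (η - ε) < 1 := by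
    by_contra hcon
    push Not at hcon
    have h1 := hcon 1 (Or.inl rfl)
    have h2 := hcon (-1) (Or.inr rfl)
    have h3 : W.valuation (η ^ 2 - 1) = W.valuation (η - 1) * W.valuation (η - -1) := by
      rw [← map_mul]
      congr 1
      ring
    rw [h3] at hval
    exact absurd hval (not_lt.2 (one_le_mul h1 h2))
  obtain ⟨ε, hε, hηε⟩ := hη1
  obtain ⟨τ, hτW, hτ⟩ := hs g
  -- `τ` preserves the maximal ideal
  have hτlt : ∀ z, W.valuation z < 1 → W.valuation (τ z) < 1 := by
    intro z hz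
    by_cases hz0 : z = 0
    · rw [hz0, map_zero, map_zero]
      exact zero_lt_one
    by_contra hcon
    have h1 : W.valuation (τ z)⁻¹ ≤ 1 := by
      rw [map_inv₀]
      exact inv_le_one_of_one_le₀ (not_lt.1 hcon)
    have h2 : τ z⁻¹ ∈ W := by
      rw [map_inv₀]
      exact (W.valuation_le_one_iff _).1 h1
    have h3 := (W.valuation_le_one_iff _).2 ((hτW _).1 h2)
    rw [map_inv₀] at h3
    have h4 : W.valuation z ≠ 0 := (Valuation.ne_zero_iff _).2 hz0
    have h5 : 1 < (W.valuation z)⁻¹ := (one_lt_inv₀ (zero_lt_iff.2 h4)).2 hz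
    exact absurd h3 (not_le.2 h5)
  have hw2 : s.toHom g w ^ 2 = w ^ 2 := by
    rw [← map_pow]
    have h1 : w ^ 2 = algebraMap K (Kur k K) (algebraMap k K e) *
        (algebraMap K (Kur k K) x - toKur k K ρ) := by
      apply Subtype.ext
      rw [he]
      exact hw
    rw [h1, map_mul, map_sub, AlgEquiv.commutes, AlgEquiv.commutes, section_toKur, hg]
  rcases sq_eq_sq_iff_eq_or_eq_neg.1 hw2 with h | h
  · exact h
  · exfalso
    have h1 : τ η = -η := by
      rw [hη, map_div₀, map_mul, map_pow, hxC, hyC, AlgEquiv.commutes, AlgEquiv.commutes, ← hτ, h]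
      have h2 : ((-w : Kur k K) : AlgebraicClosure K) = -(w : AlgebraicClosure K) := rfl
      rw [h2]
      ring
    have h2 : τ ε = ε := by
      rcases hε with h | h
      · rw [h, map_one]
      · rw [h, map_neg, map_one]
    have h3 := hτlt _ hηε
    rw [map_sub, h1, h2] at h3
    have h4 : W.valuation ((η - ε) + (-η - ε)) < 1 :=
      lt_of_le_of_lt (Valuation.map_add _ _ _) (max_lt hηε h3)
    have h5 : (η - ε) + (-η - ε) = -(2 * ε) := by ring
    rw [h5, Valuation.map_neg, map_mul] at h4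
    have h6 : W.valuation (2 : AlgebraicClosure K) = 1 := by
      have hch : CharZero K := charZero_of_injective_algebraMap (algebraMap k K).injective
      have h7 : (2 : AlgebraicClosure K) = algebraMap k (AlgebraicClosure K) 2 := by
        rw [map_ofNat]
      rw [h7]
      exact const_val_eq_one hW (isAlgebraic_algebraMap _)
        ((_root_.map_ne_zero _).2 two_ne_zero)
    have h7 : W.valuation ε = 1 := by
      rcases hε with h | h
      · rw [h, map_one]
      · rw [h, Valuation.map_neg, map_one]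
    rw [h6, h7, mul_one] at h4
    exact lt_irrefl _ h4

end inf

section exist

variable {k : Type} [Field k] [CharZero k]

theorem laurent_odd {f : k[X]} (hf : Odd f.natDegree) {c : k} (hc : c ≠ 0) :
    ∃ x y : LaurentSeries k, Transcendental k x ∧
      y ^ 2 = algebraMap k (LaurentSeries k) c * aeval x f ∧ x ∉ pvr k := by
  obtain ⟨m, hm⟩ := hf
  have hf0 : f ≠ 0 := by
    rintro rfl
    rw [natDegree_zero] at hm
    omega
  set l := f.leadingCoeff with hl
  have hl0 : l ≠ 0 := leadingCoeff_ne_zero.2 hf0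
  set e : k := c * l with he
  have he0 : e ≠ 0 := mul_ne_zero hc hl0
  set w : k[X] := C l⁻¹ * f.reverse.comp (C e⁻¹ * X ^ 2) with hw
  have hw1 : PowerSeries.constantCoeff (w : PowerSeries k) = 1 := by
    rw [← PowerSeries.coeff_zero_eq_constantCoeff_apply, coeff_coe, coeff_zero_eq_eval_zero, hw]
    simp only [eval_mul, eval_C, eval_comp, eval_pow, eval_X]
    rw [zero_pow two_ne_zero, mul_zero, ← coeff_zero_eq_eval_zero, coeff_zero_reverse]
    exact inv_mul_cancel₀ hl0
  obtain ⟨u, hu⟩ := exists_sqrt (w : PowerSeries k) hw1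
  have ht0 := tt_ne_zero k
  set t := tt k with ht
  set E := algebraMap k (LaurentSeries k) e with hE
  have hE0 : E ≠ 0 := by
    rw [hE, Ne, map_eq_zero]
    exact he0
  set x := E * (t ^ 2)⁻¹ with hx
  have hx0 : x ≠ 0 := mul_ne_zero hE0 (inv_ne_zero (pow_ne_zero _ ht0))
  refine ⟨x,
    E ^ (m + 1) * (t ^ (2 * m + 1))⁻¹ * algebraMap (PowerSeries k) (LaurentSeries k) u, ?_, ?_, ?_⟩
  · intro halg
    apply transcendental_tt k
    have h1 : IsAlgebraic k (t ^ 2) := by
      have h2 : t ^ 2 = E * x⁻¹ := by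
        rw [hx]
        field_simp
      rw [h2]
      exact (isAlgebraic_algebraMap _).mul halg.inv
    exact h1.of_pow two_pos
  · have h1 : (algebraMap (PowerSeries k) (LaurentSeries k) u) ^ 2 = aeval t w := by
      rw [← map_pow, hu, ht, coe_aeval]
    have h2 : aeval x f = aeval x⁻¹ f.reverse * x ^ f.natDegree := by
      let _ : Invertible x := invertibleOfNonzero hx0
      have h3 := eval₂_reverse_mul_pow (algebraMap k (LaurentSeries k)) x f
      rw [invOf_eq_inv] at h3
      exact h3.symm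
    have h3 : aeval t w = algebraMap k (LaurentSeries k) l⁻¹ * aeval x⁻¹ f.reverse := by
      have h5 : aeval t (C e⁻¹ * X ^ 2) = x⁻¹ := by
        rw [map_mul, map_pow, aeval_C, aeval_X, map_inv₀, ← hE, hx, mul_inv, inv_inv]
      rw [hw, map_mul, aeval_C, aeval_comp, h5]
    have h4 : algebraMap k (LaurentSeries k) c = E * algebraMap k (LaurentSeries k) l⁻¹ := by
      rw [hE, ← map_mul, he]
      congr 1
      field_simp
    rw [mul_pow, h1, h3, h2, hm, h4]
    generalize aeval x⁻¹ f.reverse = R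
    generalize algebraMap k (LaurentSeries k) l⁻¹ = R'
    rw [hx, ← inv_pow t, ← inv_pow t]
    ring
  · rintro ⟨g, hg⟩
    have h1 : algebraMap (PowerSeries k) (LaurentSeries k) (g * PowerSeries.X ^ 2) =
        algebraMap (PowerSeries k) (LaurentSeries k) (PowerSeries.C e) := by
      rw [map_mul, map_pow, hg, ← algebraMap_eq, ← hE, hx]
      change E * (t ^ 2)⁻¹ * t ^ 2 = E
      rw [mul_assoc, inv_mul_cancel₀ (pow_ne_zero 2 ht0), mul_one]
    have h2 := IsFractionRing.injective (PowerSeries k) (LaurentSeries k) h1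
    have h3 := congrArg PowerSeries.constantCoeff h2
    rw [map_mul, map_pow, PowerSeries.constantCoeff_X, zero_pow two_ne_zero, mul_zero,
      PowerSeries.constantCoeff_C] at h3
    exact he0 h3.symm

/-- The curve `y² = c f(x)` itself has a section which agrees with the point at infinity. -/
theorem exists_agreesInf {f : k[X]} (hsep : f.Separable) (h0 : f.coeff 0 ≠ 0)
    (hodd : Odd f.natDegree) {c : k} (hc : c ≠ 0) :
    ∃ (K : Type) (_ : Field K) (_ : Algebra k K) (x y : K), Transcendental k x ∧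
      y ^ 2 = algebraMap k K c * aeval x f ∧ IntermediateField.adjoin k {x, y} = ⊤ ∧
      ∃ s : GaloisSection k K, AgreesInf s x f c := by
  obtain ⟨x, y, hx, hy, hxV⟩ := laurent_odd hodd hc
  let E := IntermediateField.adjoin k {x, y}
  have hxE : x ∈ E := IntermediateField.subset_adjoin _ _ (by simp)
  have hyE : y ∈ E := IntermediateField.subset_adjoin _ _ (by simp)
  have hcoe : ∀ p : k[X], ((aeval (⟨x, hxE⟩ : E) p : E) : LaurentSeries k) = aeval x p := fun p =>
    (aeval_algebraMap_apply (LaurentSeries k) (⟨x, hxE⟩ : E) p).symm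
  have hx' : Transcendental k (⟨x, hxE⟩ : E) := fun halg =>
    hx (halg.algebraMap (A := LaurentSeries k))
  have hxy' : (⟨y, hyE⟩ : E) ^ 2 = algebraMap k E c * aeval (⟨x, hxE⟩ : E) f := by
    apply Subtype.ext
    show y ^ 2 = algebraMap k (LaurentSeries k) c * ((aeval (⟨x, hxE⟩ : E) f : E) :
      LaurentSeries k)
    rw [hcoe, hy]
  refine ⟨E, inferInstance, inferInstance, ⟨x, hxE⟩, ⟨y, hyE⟩, hx', hxy', ?_, ?_⟩
  · have h2 : IntermediateField.lift (IntermediateField.adjoin k
        {(⟨x, hxE⟩ : E), (⟨y, hyE⟩ : E)}) = IntermediateField.lift (⊤ : IntermediateField k E) := by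
      rw [IntermediateField.lift_adjoin, IntermediateField.lift_top]
      show IntermediateField.adjoin k ((fun z : E => (z : LaurentSeries k)) ''
        {⟨x, hxE⟩, ⟨y, hyE⟩}) = E
      rw [Set.image_pair]
    exact IntermediateField.lift_injective E h2
  · refine agreesInf_place ((pvr k).comap (algebraMap E (LaurentSeries k))) ?_ ?_ hc hx' hsep h0
      hodd hxy' ?_
    · intro c
      rw [ValuationSubring.mem_comap]
      exact pvr_const k c
    · intro z hz
      rw [ValuationSubring.mem_comap] at hz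
      obtain ⟨c, hc⟩ := pvr_res k _ hz
      refine ⟨c, ?_⟩
      rw [← ValuationSubring.mem_nonunits_iff, ValuationSubring.mem_nonunits_iff_or] at hc ⊢
      rcases hc with hc | hc
      · left
        apply Subtype.ext
        exact hc
      · right
        rw [ValuationSubring.mem_comap, map_inv₀]
        exact hc
    · rw [← ValuationSubring.mem_nonunits_iff, ValuationSubring.mem_nonunits_iff_or]
      right
      rw [inv_inv, ValuationSubring.mem_comap]
      exact hxV

end exist

end

end Pool.Agent.HG
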