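import Pool.Agent.Helper13.HG2.G1P

/-!
# Project HG2: from sets of primes to classes modulo squares
-/

set_option autoImplicit false

namespace Pool.Agent.HG

open Polynomial NumberField IsDedekindDomain Filter Topology

section fib

variable {k : Type} [Field k] [NumberField k]

theorem fin_val13 {c : k} (hc : c ≠ 0) : {v : Pr k | v.valuation k c ≠ 1}.Finite := by
  have h1 := HeightOneSpectrum.Support.finite (𝓞 k) c
  have h2 := HeightOneSpectrum.Support.finite (𝓞 k) c⁻¹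
  refine (h1.union h2).subset ?_
  intro v hv
  have h0 : v.valuation k c ≠ 0 := val_ne_zero v hc
  rcases lt_or_gt_of_ne (show v.valuation k c ≠ 1 from hv) with h | h
  · right
    show 1 < v.valuation k c⁻¹
    rw [map_inv₀, one_lt_inv₀ (zero_lt_iff.2 h0)]
    exact h
  · left
    exact h

theorem ne_one13 {v : Pr k} {c : k} (h : IsOdd v c) : v.valuation k c ≠ 1 := by
  intro h1
  apply h 1
  rw [map_one, one_pow, h1]

theorem isOdd_mul_sq13 {v : Pr k} {c d : k} (hd : d ≠ 0) : IsOdd v (c * d ^ 2) ↔ IsOdd v c := by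
  constructor
  · intro h e he
    apply h (e * d)
    rw [map_mul, map_mul, map_pow, mul_pow, he]
  · intro h e he
    apply h (e / d)
    have h0 := val_ne_zero v hd
    rw [map_div₀, div_pow, eq_div_iff (pow_ne_zero 2 h0), ← he, map_mul, map_pow]

/-- the fibres of the map to the sets of primes with odd valuation are finite -/
theorem fib13 {M : ℕ} {F : Finset k}
    (hF : ∀ z : k, z ≠ 0 → (∀ (p : ℕ) (v : Pr k), p.Prime → ¬ p ∣ M → (p : 𝓞 k) ∈ v.asIdeal →
      Ev v p z) → ∃ e ∈ F, ∃ d : k, z = e * d ^ 2)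
    (hu : ∀ (p : ℕ) (v : Pr k), p.Prime → ¬ p ∣ M → (p : 𝓞 k) ∈ v.asIdeal → ∀ z : k, z ≠ 0 →
      ∃ a : ℤ, v.valuation k (z * (p : k) ^ a) = 1)
    (hio : ∀ (p : ℕ) (v : Pr k), p.Prime → ¬ p ∣ M → (p : 𝓞 k) ∈ v.asIdeal → ∀ z : k, z ≠ 0 →
      (IsOdd v z ↔ Od v p z))
    (T : Finset k) (h0 : ∀ c ∈ T, c ≠ 0)
    (hT : ∀ c ∈ T, ∀ c' ∈ T, (∃ d : k, c = c' * d ^ 2) → c = c')
    (hodd : ∀ c ∈ T, ∀ c' ∈ T, ∀ v : Pr k, Gd M v → (IsOdd v c ↔ IsOdd v c')) :
    T.card ≤ F.card := by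
  classical
  rcases Finset.eq_empty_or_nonempty T with he | ⟨c₀, hc₀⟩
  · rw [he]
    simp
  have hc₀0 := h0 c₀ hc₀
  have h1 : ∀ c ∈ T, ∃ e ∈ F, ∃ d : k, c * c₀ = e * d ^ 2 := by
    intro c hc
    have hc0 := h0 c hc
    refine hF (c * c₀) (mul_ne_zero hc0 hc₀0) ?_
    intro p v hp hpM hpv
    have hp0 : (p : k) ≠ 0 := by exact_mod_cast hp.ne_zero
    obtain ⟨a, ha⟩ := hu p v hp hpM hpv c hc0
    obtain ⟨b, hb⟩ := hu p v hp hpM hpv c₀ hc₀0
    have i3 := hodd c hc c₀ hc₀ v ⟨p, hp, hpM, hpv⟩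
    rw [hio p v hp hpM hpv c hc0, hio p v hp hpM hpv c₀ hc₀0] at i3
    -- the exponents have the same parity
    have key : ∀ {z : k} {n : ℤ}, v.valuation k (z * (p : k) ^ n) = 1 → (Od v p z ↔ Odd n) := by
      intro z n hn
      constructor
      · rintro ⟨m, hm⟩
        have h2 : v.valuation k (p : k) ^ (2 * m + 1) * v.valuation k z = 1 := by
          rw [mul_comm, ← map_zpow₀, ← map_mul, hm]
        have h3 : v.valuation k (p : k) ^ n * v.valuation k z = 1 := by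
          rw [mul_comm, ← map_zpow₀, ← map_mul, hn]
        have hz : v.valuation k z ≠ 0 := by
          intro h
          rw [h, mul_zero] at h3
          exact zero_ne_one h3
        have h4 := mul_right_cancel₀ hz (h2.trans h3.symm)
        have h5 := zpow_right_injective₀ (zero_lt_iff.2 (val_p_ne hp)) (val_p_lt hpv).ne h4
        exact ⟨m, h5.symm⟩
      · rintro ⟨m, rfl⟩
        exact ⟨m, hn⟩
    rw [key ha, key hb] at i3
    have i5 : Even (a + b) := by
      rw [Int.even_add, ← Int.not_odd_iff_even, ← Int.not_odd_iff_even, i3]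
    obtain ⟨w, hw⟩ := i5
    refine ⟨w, ?_⟩
    have e : c * c₀ * (p : k) ^ (2 * w) = (c * (p : k) ^ a) * (c₀ * (p : k) ^ b) := by
      have : (p : k) ^ (2 * w) = (p : k) ^ a * (p : k) ^ b := by
        rw [← zpow_add₀ hp0, hw]
        congr 1
        ring
      rw [this]
      ring
    rw [e, map_mul, ha, hb, one_mul]
  choose! e he d hd using h1
  refine Finset.card_le_card_of_injOn e he ?_
  intro c hc c' hc' hee
  have hc0 := h0 c hc
  have hc0' := h0 c' hc'
  have g1 := hd c hc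
  have g2 := hd c' hc'
  have hd' : d c' ≠ 0 := by
    intro h
    rw [h] at g2
    have : c' * c₀ ≠ 0 := mul_ne_zero hc0' hc₀0
    apply this
    rw [g2]
    ring
  refine hT c hc c' hc' ⟨d c / d c', ?_⟩
  have g3 : c * c₀ * (d c') ^ 2 = c' * c₀ * (d c) ^ 2 := by
    have hee' : e c = e c' := hee
    rw [g1, g2, hee']
    ring
  have g4 : c * (d c') ^ 2 = c' * (d c) ^ 2 := by
    apply mul_right_cancel₀ hc₀0
    linear_combination g3
  field_simp
  exact g4

open scoped Classical in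
/-- the number of classes is bounded by the number of sets of primes -/
theorem cls_count (hSel : StmtSel) {M : ℕ} (hM : M ≠ 0)
    (hu : ∀ (p : ℕ) (v : Pr k), p.Prime → ¬ p ∣ M → (p : 𝓞 k) ∈ v.asIdeal → ∀ z : k, z ≠ 0 →
      ∃ a : ℤ, v.valuation k (z * (p : k) ^ a) = 1)
    (hio : ∀ (p : ℕ) (v : Pr k), p.Prime → ¬ p ∣ M → (p : 𝓞 k) ∈ v.asIdeal → ∀ z : k, z ≠ 0 →
      (IsOdd v z ↔ Od v p z)) :
    ∃ F : ℕ, ∀ (Bd : k → Prop) (Y : ℕ) (Φ : ℝ),
      (∀ SS : Finset (Finset (Pr k)), (∀ A ∈ SS, ∏ v ∈ A, nm v ≤ Y ∧ ∃ c : k, c ≠ 0 ∧ Bd c ∧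
        ∀ v, v ∈ A ↔ Gd M v ∧ IsOdd v c) → (SS.card : ℝ) ≤ Φ) →
      ∀ T : Finset k, (∀ c ∈ T, ∀ c' ∈ T, (∃ d : k, c = c' * d ^ 2) → c = c') →
        (∀ c ∈ T, c ≠ 0 ∧ cond c ≤ Y ∧ Bd c) → (T.card : ℝ) ≤ F * Φ := by
  obtain ⟨F, _, hF⟩ := hSel k k (⊤ : IntermediateField k k) M hM
  have hF' : ∀ z : k, z ≠ 0 → (∀ (p : ℕ) (v : Pr k), p.Prime → ¬ p ∣ M →
      (p : 𝓞 k) ∈ v.asIdeal → Ev v p z) → ∃ e ∈ F, ∃ d : k, z = e * d ^ 2 := by
    intro z hz h
    obtain ⟨e, he, d, _, hd⟩ := hF z IntermediateField.mem_top hz h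
    exact ⟨e, he, d, hd⟩
  refine ⟨F.card, fun Bd Y Φ hSS T hT hTc => ?_⟩
  have hnm1 : ∀ v : Pr k, 0 < nm v := by
    intro v
    unfold nm
    rw [Nat.pos_iff_ne_zero, Ne, Ideal.absNorm_eq_zero_iff]
    exact v.ne_bot
  have hset : ∀ c : k, ∃ S : Finset (Pr k), c ≠ 0 → ∀ v, v ∈ S ↔ Gd M v ∧ IsOdd v c := by
    intro c
    by_cases hc : c = 0
    · exact ⟨∅, fun h => absurd hc h⟩
    · have hfin' : {v : Pr k | Gd M v ∧ IsOdd v c}.Finite :=
        (fin_val13 hc).subset fun v hv => ne_one13 hv.2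
      exact ⟨hfin'.toFinset, fun _ v => by simp⟩
  choose S hS using hset
  have hNm : ∀ c ∈ T, ∏ v ∈ S c, nm v ≤ Y := by
    intro c hc
    obtain ⟨hc0, hcY, _⟩ := hTc c hc
    refine le_trans ?_ hcY
    unfold cond
    have hsub : Function.mulSupport (fun v : Pr k => if IsOdd v c then nm v else 1) ⊆
        ((fin_val13 hc0).toFinset : Set (Pr k)) := by
      intro v hv
      rw [Set.Finite.coe_toFinset]
      have h1 : IsOdd v c := by
        by_contra h
        exact hv (if_neg h)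
      exact ne_one13 h1
    rw [finprod_eq_prod_of_mulSupport_subset _ hsub]
    have h2 : ∏ v ∈ S c, nm v = ∏ v ∈ S c, (if IsOdd v c then nm v else 1) := by
      refine Finset.prod_congr rfl fun v hv => ?_
      rw [if_pos ((hS c hc0 v).1 hv).2]
    rw [h2]
    refine Nat.le_of_dvd (Finset.prod_pos fun v _ => ?_) (Finset.prod_dvd_prod_of_subset _ _ _ ?_)
    · split_ifs
      · exact hnm1 v
      · exact one_pos
    · intro v hv
      rw [Set.Finite.mem_toFinset]
      exact ne_one13 ((hS c hc0 v).1 hv).2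
  have hfib : T.card ≤ F.card * (T.image S).card := by
    refine Finset.card_le_mul_card_image (f := S) T F.card ?_
    intro A hA'
    refine fib13 hF' hu hio (T.filter fun c => S c = A)
      (fun c hc => (hTc c (Finset.mem_filter.1 hc).1).1) ?_ ?_
    · intro c hc c' hc' h
      exact hT c (Finset.mem_filter.1 hc).1 c' (Finset.mem_filter.1 hc').1 h
    · intro c hc c' hc' v hv
      obtain ⟨h1, h2⟩ := Finset.mem_filter.1 hc
      obtain ⟨h3, h4⟩ := Finset.mem_filter.1 hc'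
      have i1 := hS c (hTc c h1).1 v
      have i2 := hS c' (hTc c' h3).1 v
      rw [h2] at i1
      rw [h4] at i2
      constructor
      · intro h
        exact (i2.1 (i1.2 ⟨hv, h⟩)).2
      · intro h
        exact (i1.1 (i2.2 ⟨hv, h⟩)).2
  have h1 : ((T.image S).card : ℝ) ≤ Φ := by
    refine hSS _ fun A hA => ?_
    obtain ⟨c, hc, rfl⟩ := Finset.mem_image.1 hA
    exact ⟨hNm c hc, c, (hTc c hc).1, (hTc c hc).2.2, hS c (hTc c hc).1⟩
  calc (T.card : ℝ) ≤ F.card * (T.image S).card := by exact_mod_cast hfib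
    _ ≤ F.card * Φ := mul_le_mul_of_nonneg_left h1 (Nat.cast_nonneg _)

end fib

end Pool.Agent.HG
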