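import Pool.Agent.Helper13.HG2.Cls

/-!
# Project HG2: the final theorem from the blocks
-/

set_option autoImplicit false

namespace Pool.Agent.HG

open Polynomial NumberField IsDedekindDomain Filter Topology
open Pool.Agent.Helper99.HG (CD pf Nm BT TA TB Sys)

private theorem tendsto_log_rpow13 {η : ℝ} (hη : 0 < η) (a : ℝ) :
    Tendsto (fun X : ℕ => a / Real.log X ^ η) atTop (𝓝 0) := by
  have hlog : Tendsto (fun X : ℕ => Real.log X) atTop atTop :=
    Real.tendsto_log_atTop.comp tendsto_natCast_atTop_atTop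
  have h := ((tendsto_rpow_neg_atTop hη).comp hlog).const_mul a
  rw [mul_zero] at h
  refine h.congr' ?_
  filter_upwards [eventually_ge_atTop 1] with X hX
  have h0 : 0 ≤ Real.log X := Real.log_natCast_nonneg X
  change a * Real.log X ^ (-η) = _
  rw [Real.rpow_neg h0]
  rfl

theorem cmp_root {k L : Type} [Field k] [NumberField k] [Field L] [NumberField L] [Algebra k L]
    [IsGalois k L] {f : k[X]} (X : Ctx k L f) (hm : 0 < X.m) {a : k} (ha : eval a f = 0) {θ : L}
    (hθ : θ ∈ X.Ω) : X.cmp hm θ = X.cmp hm (algebraMap k L a) ↔ θ = algebraMap k L a := by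
  have haΩ : algebraMap k L a ∈ X.Ω := by
    rw [X.mem_Ω, mem_rootSet]
    refine ⟨X.sepf.ne_zero, ?_⟩
    rw [aeval_algebraMap_apply]
    have : aeval a f = 0 := ha
    rw [this, map_zero]
  constructor
  · intro h
    have h1 := (X.cmp_eq hm hθ haΩ).1 h
    have h2 := minpoly.aeval k θ
    rw [h1, minpoly.eq_X_sub_C] at h2
    simpa [sub_eq_zero] using h2
  · rintro rfl
    rfl

open scoped Classical in
theorem g5P (hAP : StmtAP) (hSel : StmtSel) (hCN : StmtCountN) (hCL : StmtCountL)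
    (hG1 : StmtG1P) (hG2 : StmtG2) (hG3 : StmtG3P) (hG4 : StmtG4) (hBTR : StmtBTR)
    (hBTLR : StmtBTLR) (hSM : StmtSmall) (hNeg : StmtNeg) (hThue : StmtThue) (hBTL : StmtBTL)
    (hMert : StmtMert) (hSplit : StmtSplit) (hDer : StmtDer) : StmtFinalP := by
  intro k _ _ f hsep heven hdeg a ha hdeg4 ε hε
  have h4 : 4 ≤ f.natDegree := by omega
  -- the splitting field
  let L := f.SplittingField
  have : NumberField L := NumberField.of_module_finite k L
  have : IsGalois k L := IsGalois.of_separable_splitting_field hsep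
  have hsplit : (f.map (algebraMap k L)).Splits := SplittingField.splits f
  obtain ⟨MA, hMA, hsec⟩ := hAP k f heven h4 hsep L hsplit
  obtain ⟨X, hMX, hm, hfin⟩ := hG4 hThue k L f hsep hsplit h4 MA hMA
  obtain ⟨H, hH, g, e, hg⟩ := hG1 hSel k L f X h4 hm hfin
  have : Fintype H := Fintype.ofFinite H
  have hdegL : ∀ θ ∈ X.Ω, θ ≠ algebraMap k L a → 4 ≤ (minpoly k θ).natDegree := by
    intro θ hθ hne
    have halg : Algebra.IsAlgebraic k L := inferInstance
    obtain ⟨ι⟩ : Nonempty (L →ₐ[k] AlgebraicClosure k) := ⟨IsAlgClosed.lift⟩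
    rw [← minpoly.algHom_eq ι ι.injective θ]
    refine hdeg4 (ι θ) ?_ ?_
    · have h1 := ((X.mem_Ω θ).1 hθ)
      rw [mem_rootSet] at h1
      rw [aeval_algHom_apply, h1.2, map_zero]
    · intro h
      apply hne
      exact ι.injective (h.trans (ι.commutes a).symm)
  -- the counting theorems
  have hN : ∀ h : H, ∃ ε η C η' C' : ℝ, 0 < ε ∧ ε < 1 ∧ 0 < η ∧ 0 < C ∧ 0 < η' ∧ 0 < C' ∧
      (∀ Y B : ℕ, 3 ≤ Y → 2 ≤ B → ∀ S : Finset (Finset (Pr k)),
        (∀ c ∈ S, Nm (X.cd hm hfin (g h)) c ≤ Y ∧ ∃ τ : Pr k → L × ℤˣ,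
          BadT (X.cd hm hfin (g h)) c τ ∧
          (∃ p ∈ pf (X.cd hm hfin (g h)) c, X.cmp hm (τ p).1 ≠ X.cmp hm (algebraMap k L a) ∧
            B ≤ nm p) ∧
          ∀ p ∈ pf (X.cd hm hfin (g h)) c, X.cmp hm (τ p).1 ≠ X.cmp hm (algebraMap k L a) →
            (nm p : ℝ) ≤ Real.exp (Real.log Y ^ ε)) →
        (S.card : ℝ) ≤ C * Y * (1 / Real.log B ^ η + 1 / Real.log Y ^ η)) ∧
      (∀ Y : ℕ, 3 ≤ Y → ∀ S : Finset (Finset (Pr k)),
        (∀ c ∈ S, Nm (X.cd hm hfin (g h)) c ≤ Y ∧ ∃ τ : Pr k → L × ℤˣ,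
          BadT (X.cd hm hfin (g h)) c τ ∧
          ∃ p ∈ pf (X.cd hm hfin (g h)) c, X.cmp hm (τ p).1 ≠ X.cmp hm (algebraMap k L a) ∧
            Real.exp (Real.log Y ^ ε) ≤ nm p) →
        (S.card : ℝ) ≤ C' * Y / Real.log Y ^ η') := by
    intro h
    obtain ⟨a1, a2, a3, a4, a5⟩ := hG3 hMert hSplit hDer k L f X a ha hdegL hm hfin (g h)
    have b1 := hG2 hBTL hMert k L f X hm hfin (g h)
    have b2 := hBTR hBTLR hSel k L f X a ha hm hfin (g h)
    obtain ⟨ε₁, η, C, c1, c2, c3, c4, c5⟩ := hCL X.m ℤˣ (X.cd hm hfin (g h)) a1 a2 b1 _ a3 b2 a5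
    obtain ⟨η', C', d1, d2, d3⟩ := hCN X.m ℤˣ (X.cd hm hfin (g h)) a1 a2 b1 _ a3 a4 ε₁ c1 c2
    exact ⟨ε₁, η, C, η', C', c1, c2, c3, c4, d1, d2, c5, d3⟩
  choose ε₁ η C η' C' he0 he1 hη hC hη' hC' hCL' hCN' using hN
  obtain ⟨F, hF⟩ := cls_count (k := k) hSel X.hM X.unif
    (fun p v hp hpM hpv z hz => X.isOdd_iff hp hpM hpv hz)
  -- the parameter `B`
  obtain ⟨ε', hε'⟩ : ∃ ε' : ℝ, ε' = ε / (F + 1) := ⟨_, rfl⟩
  have hε'0 : 0 < ε' := by
    rw [hε']
    positivity
  have hB1 : Tendsto (fun B : ℕ => ∑ h : H, C h / Real.log B ^ η h) atTop (𝓝 0) := by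
    have := tendsto_finsetSum (Finset.univ : Finset H)
      (fun h _ => tendsto_log_rpow13 (hη h) (C h))
    simpa using this
  obtain ⟨B, hB2, hBε⟩ := ((eventually_ge_atTop 2).and
    (hB1.eventually_le_const (half_pos hε'0))).exists
  obtain ⟨ηS, CS, hηS, hCS, hSM'⟩ := hSM hSel hMert hNeg k L f X h4 a ha B
  have hlim : Tendsto (fun Y : ℕ => (∑ h : H, (C h / Real.log Y ^ η h + C' h / Real.log Y ^ η' h)) +
      CS / Real.log Y ^ ηS) atTop (𝓝 0) := by
    have h1 := tendsto_finsetSum (Finset.univ : Finset H)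
      (fun h _ => (tendsto_log_rpow13 (hη h) (C h)).add (tendsto_log_rpow13 (hη' h) (C' h)))
    have h2 := tendsto_log_rpow13 hηS CS
    have h3 := h1.add h2
    simpa using h3
  filter_upwards [hlim.eventually_le_const (half_pos hε'0), eventually_ge_atTop 3] with Y hY hY3
  intro T hT hTc
  have hY0 : (0 : ℝ) ≤ Y := Nat.cast_nonneg Y
  have key : ∀ SS : Finset (Finset (Pr k)), (∀ A ∈ SS, ∏ v ∈ A, nm v ≤ Y ∧ ∃ c : k, c ≠ 0 ∧
      Other f a c ∧ ∀ v, v ∈ A ↔ Gd X.M v ∧ IsOdd v c) → (SS.card : ℝ) ≤ ε' * Y := by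
    intro SS hSS
    -- the data
    have hdat : ∀ A ∈ SS, ∃ (c : k) (D : L → L → L) (α : Pr k → 𝓞 k) (t : Pr k → L),
        DatS X c A D α t ∧ ¬ Triv f a D := by
      intro A hA
      obtain ⟨_, c, hc, hO, hS⟩ := hSS A hA
      obtain ⟨α, D, hbad, hntr⟩ := hsec c a hc ha hO
      have hbad := hbad.mono hMX
      have ht : ∀ v : Pr k, ∃ t : L, v ∈ A → t ∈ X.Ω ∧
          (X.P v).valuation L (algebraMap k L (α v) - t) < 1 ∧ X.F v t = t := by
        intro v
        by_cases hv : v ∈ A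
        · obtain ⟨t, h1, h2, h3⟩ := exists_t hc hbad ((hS v).1 hv).1 ((hS v).1 hv).2
          exact ⟨t, fun _ => ⟨h1, h2, h3⟩⟩
        · exact ⟨0, fun h => absurd h hv⟩
      choose t ht using ht
      exact ⟨c, D, α, t,
        { hc := hc, hS := hS, bad := hbad
          t_mem := fun v hv => (ht v hv).1
          t_val := fun v hv => (ht v hv).2.1
          t_fix := fun v hv => (ht v hv).2.2 }, hntr⟩
    -- the three kinds
    let S1 : H → Finset (Finset (Pr k)) := fun h => SS.filter fun A => ∃ τ : Pr k → L × ℤˣ,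
      BadT (X.cd hm hfin (g h)) A τ ∧
      (∃ p ∈ pf (X.cd hm hfin (g h)) A, X.cmp hm (τ p).1 ≠ X.cmp hm (algebraMap k L a) ∧
        B ≤ nm p) ∧
      ∀ p ∈ pf (X.cd hm hfin (g h)) A, X.cmp hm (τ p).1 ≠ X.cmp hm (algebraMap k L a) →
        (nm p : ℝ) ≤ Real.exp (Real.log Y ^ ε₁ h)
    let S2 : H → Finset (Finset (Pr k)) := fun h => SS.filter fun A => ∃ τ : Pr k → L × ℤˣ,
      BadT (X.cd hm hfin (g h)) A τ ∧
      ∃ p ∈ pf (X.cd hm hfin (g h)) A, X.cmp hm (τ p).1 ≠ X.cmp hm (algebraMap k L a) ∧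
        Real.exp (Real.log Y ^ ε₁ h) ≤ nm p
    let S3 : Finset (Finset (Pr k)) := SS.filter fun A => ∃ (c : k) (D : L → L → L)
      (α : Pr k → 𝓞 k) (t : Pr k → L), DatS X c A D α t ∧ ¬ Triv f a D ∧
        ∀ v ∈ A, t v ≠ algebraMap k L a → nm v ≤ B
    have hcov : SS ⊆ (Finset.univ.biUnion fun h => S1 h ∪ S2 h) ∪ S3 := by
      intro A hA
      obtain ⟨c, D, α, t, hd, hntr⟩ := hdat A hA
      by_cases hall : ∀ v ∈ A, t v ≠ algebraMap k L a → nm v ≤ B
      · exact Finset.mem_union_right _ (Finset.mem_filter.2 ⟨hA, c, D, α, t, hd, hntr, hall⟩)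
      · push Not at hall
        obtain ⟨v, hv, hva, hvB⟩ := hall
        obtain ⟨h, u, hbt, _⟩ := hg c A D α t hd
        refine Finset.mem_union_left _ (Finset.mem_biUnion.2 ⟨h, Finset.mem_univ _, ?_⟩)
        have hpf : pf (X.cd hm hfin (g h)) A = A := by
          unfold Pool.Agent.Helper99.HG.pf
          refine Finset.filter_true_of_mem fun v hv => ?_
          intro h1
          exact (hfin.mem_toFinset.1 h1) ((hd.hS v).1 hv).1
        have hcmp : ∀ w ∈ A, (X.cmp hm (t w) ≠ X.cmp hm (algebraMap k L a) ↔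
            t w ≠ algebraMap k L a) := fun w hw =>
          not_congr (cmp_root X hm ha (hd.t_mem w hw))
        by_cases hbig : ∃ p ∈ A, t p ≠ algebraMap k L a ∧ Real.exp (Real.log Y ^ ε₁ h) ≤ nm p
        · obtain ⟨p, hp, hpa, hpb⟩ := hbig
          refine Finset.mem_union_right _ (Finset.mem_filter.2 ⟨hA, _, hbt, p, ?_,
            (hcmp p hp).2 hpa, hpb⟩)
          rw [hpf]
          exact hp
        · push Not at hbig
          refine Finset.mem_union_left _ (Finset.mem_filter.2 ⟨hA, _, hbt,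
            ⟨v, ?_, (hcmp v hv).2 hva, hvB.le⟩, ?_⟩)
          · rw [hpf]
            exact hv
          · intro p hp hpc
            rw [hpf] at hp
            exact (hbig p hp ((hcmp p hp).1 hpc)).le
    have hcard : (SS.card : ℝ) ≤ (∑ h : H, (((S1 h).card : ℝ) + (S2 h).card)) + S3.card := by
      have g1 := Finset.card_le_card hcov
      have g2 := Finset.card_union_le (Finset.univ.biUnion fun h => S1 h ∪ S2 h) S3
      have g3 : (Finset.univ.biUnion fun h => S1 h ∪ S2 h).card ≤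
          ∑ h : H, ((S1 h).card + (S2 h).card) :=
        Finset.card_biUnion_le.trans (Finset.sum_le_sum fun h _ => Finset.card_union_le _ _)
      have g4 : SS.card ≤ (∑ h : H, ((S1 h).card + (S2 h).card)) + S3.card := by omega
      exact_mod_cast g4
    have hS1 : ∀ h : H, ((S1 h).card : ℝ) ≤
        C h * Y * (1 / Real.log B ^ η h + 1 / Real.log Y ^ η h) := by
      intro h
      refine hCL' h Y B hY3 hB2 (S1 h) fun A hA => ?_
      obtain ⟨h1, h2⟩ := Finset.mem_filter.1 hA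
      exact ⟨(hSS A h1).1, h2⟩
    have hS2 : ∀ h : H, ((S2 h).card : ℝ) ≤ C' h * Y / Real.log Y ^ η' h := by
      intro h
      refine hCN' h Y hY3 (S2 h) fun A hA => ?_
      obtain ⟨h1, h2⟩ := Finset.mem_filter.1 hA
      exact ⟨(hSS A h1).1, h2⟩
    have hS3 : (S3.card : ℝ) ≤ CS * Y / Real.log Y ^ ηS := by
      refine hSM' Y hY3 S3 fun A hA => ?_
      obtain ⟨h1, h2⟩ := Finset.mem_filter.1 hA
      exact ⟨(hSS A h1).1, h2⟩
    calc (SS.card : ℝ) ≤ (∑ h : H, (((S1 h).card : ℝ) + (S2 h).card)) + S3.card := hcard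
      _ ≤ (∑ h : H, (C h * Y * (1 / Real.log B ^ η h + 1 / Real.log Y ^ η h) +
            C' h * Y / Real.log Y ^ η' h)) + CS * Y / Real.log Y ^ ηS :=
          add_le_add (Finset.sum_le_sum fun h _ => add_le_add (hS1 h) (hS2 h)) hS3
      _ = (∑ h : H, C h / Real.log B ^ η h) * Y +
          ((∑ h : H, (C h / Real.log Y ^ η h + C' h / Real.log Y ^ η' h)) +
            CS / Real.log Y ^ ηS) * Y := by
          rw [add_mul, Finset.sum_mul, Finset.sum_mul, ← add_assoc, ← Finset.sum_add_distrib]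
          congr 1
          · refine Finset.sum_congr rfl fun h _ => ?_
            ring
          · ring
      _ ≤ (ε' / 2) * Y + (ε' / 2) * Y :=
          add_le_add (mul_le_mul_of_nonneg_right hBε hY0) (mul_le_mul_of_nonneg_right hY hY0)
      _ = ε' * Y := by ring
  have hfinal := hF (Other f a) Y (ε' * Y) key T hT hTc
  refine hfinal.trans ?_
  have h1 : (F : ℝ) * (ε' * Y) ≤ (F + 1) * (ε' * Y) := by
    have : 0 ≤ ε' * Y := by positivity
    nlinarith
  refine h1.trans (le_of_eq ?_)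
  rw [hε']
  field_simp

end Pool.Agent.HG
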