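import Pool.Agent.Helper13.HG2.Defs
import Pool.Agent.Helper45.HG.A

/-!
# Odd degree: comparison with the point at infinity
-/

set_option autoImplicit false
set_option linter.unusedSectionVars false

namespace Pool.Agent.HG

open Polynomial Filter NumberField IsDedekindDomain Pool.Agent.Helper91.Sect
open scoped IntermediateField

noncomputable section

/-- The section `s` of the function field `K ∋ x` of a curve over `y² = c f(x)`, `f` of odd degree,
agrees modulo `2` with the section of the point at infinity: for every root `ρ` of `f` the square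
roots of `c a₀ (x - ρ)`, `a₀` the leading coefficient, are fixed by `s`, over `k(ρ)`. -/
def AgreesInf {k K : Type} [Field k] [Field K] [Algebra k K] (s : GaloisSection k K) (x : K)
    (f : k[X]) (c : k) : Prop :=
  ∀ ρ : kbar k K, aeval ρ f = 0 → ∃ W : Kur k K,
    (W : AlgebraicClosure K) ^ 2 = algebraMap k (AlgebraicClosure K) (c * f.leadingCoeff) *
      (algebraMap K (AlgebraicClosure K) x - ρ) ∧
    ∀ g : Gk k K, g ρ = ρ → s.toHom g W = W

/-- some curve which maps onto `y² = c f(x)` has a section which does not agree modulo `2` with the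
section of the point at infinity -/
def OtherInf {k : Type} [Field k] (f : k[X]) (c : k) : Prop :=
  ∃ (K : Type) (_ : Field K) (_ : Algebra k K) (x y : K), Transcendental k x ∧
    y ^ 2 = algebraMap k K c * aeval x f ∧ ∃ s : GaloisSection k K, ¬ AgreesInf s x f c

/-- The theorem for odd degree. -/
def StmtFinalOdd : Prop :=
  ∀ (k : Type) [Field k] [NumberField k] (f : k[X]), f.Separable → Odd f.natDegree →
    5 ≤ f.natDegree →
    (∀ θ : AlgebraicClosure k, aeval θ f = 0 → 4 ≤ (minpoly k θ).natDegree) →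
    ∀ ε : ℝ, 0 < ε → ∀ᶠ X : ℕ in atTop, ∀ T : Finset k,
      (∀ c ∈ T, ∀ c' ∈ T, (∃ d : k, c = c' * d ^ 2) → c = c') →
      (∀ c ∈ T, c ≠ 0 ∧ cond c ≤ X ∧ OtherInf f c) → (T.card : ℝ) ≤ ε * X

section reverse

variable {k : Type} [Field k]

theorem reverse_degree {f : k[X]} (h0 : f.coeff 0 ≠ 0) : f.reverse.natDegree = f.natDegree := by
  rw [reverse_natDegree]
  have h1 : f.natTrailingDegree = 0 := by
    apply Nat.eq_zero_of_le_zero
    exact natTrailingDegree_le_of_ne_zero h0
  rw [h1, Nat.sub_zero]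

theorem reverse_reverse' {f : k[X]} (h0 : f.coeff 0 ≠ 0) : f.reverse.reverse = f := by
  ext n
  rw [coeff_reverse, coeff_reverse, reverse_degree h0, revAt_invol]

theorem reverse_squarefree {f : k[X]} (h0 : f.coeff 0 ≠ 0) (hf : Squarefree f) :
    Squarefree (X * f.reverse) := by
  have hf0 : f ≠ 0 := by
    rintro rfl
    exact h0 (coeff_zero 0)
  have hr0 : f.reverse.coeff 0 ≠ 0 := by
    rw [coeff_zero_reverse]
    exact leadingCoeff_ne_zero.2 hf0
  have h1 : Squarefree f.reverse := by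
    intro p hp
    have hp0 : p.coeff 0 ≠ 0 := by
      intro h
      obtain ⟨q, hq⟩ := hp
      apply hr0
      rw [hq, mul_coeff_zero, mul_coeff_zero, h, zero_mul, zero_mul]
    obtain ⟨q, hq⟩ := hp
    have h2 : p.reverse * p.reverse ∣ f := by
      refine ⟨q.reverse, ?_⟩
      rw [← reverse_mul_of_domain, ← reverse_mul_of_domain, ← hq, reverse_reverse' h0]
    have h3 := hf _ h2
    have h4 := natDegree_eq_zero_of_isUnit h3
    rw [reverse_degree hp0] at h4
    rw [eq_C_of_natDegree_eq_zero h4]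
    exact isUnit_C.2 (isUnit_iff_ne_zero.2 hp0)
  rw [squarefree_mul_iff]
  refine ⟨?_, irreducible_X.squarefree, h1⟩
  apply IsCoprime.isRelPrime
  rw [irreducible_X.coprime_iff_not_dvd]
  rw [X_dvd_iff]
  exact hr0

end reverse

section inf

theorem eval_reverse {k K : Type} [Field k] [Field K] [Algebra k K] (f : k[X]) {x : K}
    (hx : x ≠ 0) : aeval x⁻¹ f.reverse * x ^ f.natDegree = aeval x f := by
  let _ : Invertible x := invertibleOfNonzero hx
  have h1 := eval₂_reverse_mul_pow (algebraMap k K) x f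
  rw [invOf_eq_inv] at h1
  exact h1

theorem pow_inv_aux {K : Type} [Field K] {x : K} (hx : x ≠ 0) (m : ℕ) :
    x ^ (2 * m + 1) * (x⁻¹ ^ (m + 1)) ^ 2 = x⁻¹ := by
  have h1 : (x⁻¹ ^ (m + 1)) ^ 2 = x⁻¹ ^ (2 * m + 1) * x⁻¹ := by ring
  rw [h1, ← mul_assoc, ← mul_pow, mul_inv_cancel₀ hx, one_pow, one_mul]

theorem agreesInf_of_agrees {k K : Type} [Field k] [Field K] [Algebra k K] [CharZero k]
    (s : GaloisSection k K) {x y : K} {f : k[X]} {c : k} (hc : c ≠ 0) (hx : Transcendental k x)
    (hsep : f.Separable) (h0 : f.coeff 0 ≠ 0) (hodd : Odd f.natDegree)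
    (hxy : y ^ 2 = algebraMap k K c * aeval x f) (h : Agrees s x⁻¹ (X * f.reverse) 0 c) :
    AgreesInf s x f c := by
  classical
  have hf0 : f ≠ 0 := hsep.ne_zero
  have hx0 : x ≠ 0 := by
    rintro rfl
    exact hx isAlgebraic_zero
  have hgsep : (X * f.reverse : k[X]).Separable := by
    rw [PerfectField.separable_iff_squarefree]
    exact reverse_squarefree h0 hsep.squarefree
  obtain ⟨m, hm⟩ := hodd
  have hcK : algebraMap k K c ≠ 0 := (_root_.map_ne_zero _).2 hc
  have hxy' : algebraMap k K c * (y * x⁻¹ ^ (m + 1) / algebraMap k K c) ^ 2 =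
      aeval x⁻¹ (X * f.reverse) := by
    have h1 := eval_reverse f hx0
    rw [hm] at h1
    have h2 := pow_inv_aux hx0 m
    rw [div_pow, mul_pow, hxy, ← h1, map_mul, aeval_X]
    calc algebraMap k K c * (algebraMap k K c * (aeval x⁻¹ f.reverse * x ^ (2 * m + 1)) *
          (x⁻¹ ^ (m + 1)) ^ 2 / algebraMap k K c ^ 2) =
        aeval x⁻¹ f.reverse * (x ^ (2 * m + 1) * (x⁻¹ ^ (m + 1)) ^ 2) *
          (algebraMap k K c ^ 2 / algebraMap k K c ^ 2) := by ring
      _ = x⁻¹ * aeval x⁻¹ f.reverse := by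
          rw [h2, div_self (pow_ne_zero 2 hcK), mul_one, mul_comm]
  have hu : Transcendental k x⁻¹ := fun hh => hx (by simpa using hh.inv)
  obtain ⟨d, -⟩ := exists_crv hu hgsep hc hxy'
  intro ρ hρ
  have hρ0 : ρ ≠ 0 := by
    rintro rfl
    rw [aeval_def, eval₂_at_zero] at hρ
    exact h0 ((_root_.map_eq_zero _).1 hρ)
  have hρ' : aeval ρ⁻¹ (X * f.reverse) = 0 := by
    have h1 := eval_reverse f hρ0
    rw [hρ] at h1
    rw [map_mul, (mul_eq_zero.1 h1).resolve_right (pow_ne_zero _ hρ0), mul_zero]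
  have hzero : aeval (0 : kbar k K) (X * f.reverse) = 0 := by
    rw [map_mul, aeval_X, zero_mul]
  have hWm : d.v ρ⁻¹ * d.v 0 ∈ Kur k K :=
    prod_mem_Kur d.a0_ne d.c_ne d.heq d.hv ((d.hR _).2 hρ') ((d.hR _).2 hzero)
  obtain ⟨W', hW'⟩ : ∃ W' : Kur k K, W' = ⟨_, hWm⟩ := ⟨_, rfl⟩
  have hW'2 : (W' : AlgebraicClosure K) ^ 2 =
      (algebraMap K (AlgebraicClosure K) x⁻¹ - ((ρ⁻¹ : kbar k K) : AlgebraicClosure K)) *
      algebraMap K (AlgebraicClosure K) (x⁻¹ - algebraMap k K 0) := by
    have h1 : (W' : AlgebraicClosure K) = d.v ρ⁻¹ * d.v 0 := by rw [hW']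
    rw [h1, mul_pow, d.hv, d.hv, map_zero (algebraMap k K), sub_zero]
    congr 1
    exact sub_zero _
  have hlc : f.leadingCoeff ≠ 0 := leadingCoeff_ne_zero.2 hf0
  have hder : eval 0 (derivative (X * f.reverse)) = f.leadingCoeff := by
    rw [derivative_mul, derivative_X, one_mul, eval_add, eval_mul, eval_X, zero_mul, add_zero,
      ← coeff_zero_eq_eval_zero, coeff_zero_reverse]
  obtain ⟨l, hl⟩ : ∃ l : kbar k K, l = algebraMap k (kbar k K) (c * f.leadingCoeff) := ⟨_, rfl⟩
  have hl0 : l ≠ 0 := by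
    rw [hl]
    exact (_root_.map_ne_zero _).2 (mul_ne_zero hc hlc)
  obtain ⟨r, hr⟩ : ∃ r : kbar k K, r ^ 2 = l * (0 - ρ⁻¹) := IsAlgClosed.exists_pow_nat_eq _ two_pos
  have hr0 : r ≠ 0 := by
    rintro rfl
    rw [zero_pow two_ne_zero, eq_comm, zero_sub, mul_neg, neg_eq_zero] at hr
    exact mul_ne_zero hl0 (inv_ne_zero hρ0) hr
  have hag := h ρ⁻¹ hρ' (by rw [map_zero]; exact inv_ne_zero hρ0) W' hW'2 r (by
    rw [hder, ← hl, map_zero]
    exact hr)
  refine ⟨W' * toKur k K l * algebraMap K (Kur k K) x / toKur k K r, ?_, ?_⟩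
  · have h1 : ((W' * toKur k K l * algebraMap K (Kur k K) x / toKur k K r : Kur k K) :
        AlgebraicClosure K) = (W' : AlgebraicClosure K) * (l : AlgebraicClosure K) *
        algebraMap K (AlgebraicClosure K) x / (r : AlgebraicClosure K) := rfl
    have h2 : (r : AlgebraicClosure K) ^ 2 =
        (l : AlgebraicClosure K) * (0 - (ρ : AlgebraicClosure K)⁻¹) := by
      have h3 := congrArg (fun z : kbar k K => (z : AlgebraicClosure K)) hr
      simpa using h3
    have h4 : (l : AlgebraicClosure K) = algebraMap k (AlgebraicClosure K) (c * f.leadingCoeff) := by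
      rw [hl]
      rfl
    have hρK : (ρ : AlgebraicClosure K) ≠ 0 := fun h => hρ0 (Subtype.ext h)
    have hlK : (l : AlgebraicClosure K) ≠ 0 := fun h => hl0 (Subtype.ext h)
    have hxK : algebraMap K (AlgebraicClosure K) x ≠ 0 := (_root_.map_ne_zero _).2 hx0
    have h5 : ((ρ⁻¹ : kbar k K) : AlgebraicClosure K) = (ρ : AlgebraicClosure K)⁻¹ := rfl
    rw [h1, div_pow, mul_pow, mul_pow, hW'2, h2, ← h4, h5, map_zero (algebraMap k K), sub_zero,
      map_inv₀]
    field_simp
    ring
  · intro g hg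
    have hgρ : g ρ⁻¹ = ρ⁻¹ := by rw [map_inv₀, hg]
    have h1 := hag g hgρ
    have h2 : s.toHom g W' * toKur k K r = W' * toKur k K (g r) := Subtype.ext h1
    have h3 : g l = l := by rw [hl, AlgEquiv.commutes]
    have hr1 : toKur k K r ≠ 0 := (_root_.map_ne_zero _).2 hr0
    have hr2 : toKur k K (g r) ≠ 0 := (_root_.map_ne_zero _).2 ((_root_.map_ne_zero _).2 hr0)
    rw [map_div₀, map_mul, map_mul, section_toKur, section_toKur, AlgEquiv.commutes, h3]
    rw [div_eq_div_iff hr2 hr1]
    linear_combination (toKur k K l * algebraMap K (Kur k K) x) * h2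

theorem finrank_inv {k C : Type} [Field k] [Field C] [Algebra k C] {θ : C} (hθ : IsIntegral k θ) :
    (minpoly k θ⁻¹).natDegree = (minpoly k θ).natDegree := by
  have h1 : k⟮θ⁻¹⟯ = k⟮θ⟯ := by
    apply le_antisymm
    · rw [IntermediateField.adjoin_simple_le_iff]
      exact inv_mem (IntermediateField.mem_adjoin_simple_self k θ)
    · rw [IntermediateField.adjoin_simple_le_iff]
      have h2 := inv_mem (IntermediateField.mem_adjoin_simple_self k θ⁻¹)
      rwa [inv_inv] at h2
  rw [← IntermediateField.adjoin.finrank hθ, ← IntermediateField.adjoin.finrank (IsIntegral.inv hθ),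
    h1]

/-- The odd case follows. -/
theorem finalOdd_of_finalP (h : StmtFinalP) : StmtFinalOdd := by
  intro k _ _ f hsep hodd h5 hdeg ε hε
  have hf0 : f ≠ 0 := hsep.ne_zero
  have h0 : f.coeff 0 ≠ 0 := by
    intro h0
    have h1 : aeval (0 : AlgebraicClosure k) f = 0 := by
      rw [aeval_def, eval₂_at_zero, h0, map_zero]
    have h2 := hdeg 0 h1
    rw [minpoly.zero, natDegree_X] at h2
    omega
  have hgsep : (X * f.reverse : k[X]).Separable := by
    rw [PerfectField.separable_iff_squarefree]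
    exact reverse_squarefree h0 hsep.squarefree
  have hr0 : f.reverse ≠ 0 := fun hh => hf0 (reverse_eq_zero.1 hh)
  have hgdeg : (X * f.reverse : k[X]).natDegree = f.natDegree + 1 := by
    rw [natDegree_X_mul hr0, reverse_degree h0]
  have hev : Even (X * f.reverse : k[X]).natDegree := by
    rw [hgdeg]
    exact hodd.add_one
  have key := h k (X * f.reverse) hgsep hev (by rw [hgdeg]; omega) 0
    (by rw [eval_mul, eval_X, zero_mul]) (by
      intro θ hθ hne
      rw [map_zero] at hne
      rw [map_mul, aeval_X] at hθ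
      have h1 := (mul_eq_zero.1 hθ).resolve_left hne
      have h2 := eval_reverse f (inv_ne_zero hne)
      rw [inv_inv, h1, zero_mul, eq_comm] at h2
      have h3 := hdeg _ h2
      rw [finrank_inv (Algebra.IsIntegral.isIntegral θ)] at h3
      exact h3) ε hε
  filter_upwards [key] with Y hY
  intro T hT1 hT2
  refine hY T hT1 fun c hc => ?_
  obtain ⟨h1, h2, K, hF, hA, x, y, hx, hxy, s, hs⟩ := hT2 c hc
  refine ⟨h1, h2, K, hF, hA, x⁻¹, ?_⟩
  obtain ⟨m, hm⟩ := hodd
  have hx0 : x ≠ 0 := by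
    rintro rfl
    exact hx isAlgebraic_zero
  refine ⟨y * x⁻¹ ^ (m + 1), fun hh => hx (by simpa using hh.inv), ?_, s, fun hag => hs
    (agreesInf_of_agrees s h1 hx hsep h0 ⟨m, hm⟩ hxy hag)⟩
  have h3 := eval_reverse f hx0
  rw [hm] at h3
  have h4 := pow_inv_aux hx0 m
  rw [mul_pow, hxy, ← h3, map_mul, aeval_X]
  linear_combination (algebraMap k K c * aeval x⁻¹ f.reverse) * h4

end inf

end

end Pool.Agent.HG
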